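import Pool.Agent.Lib.MP_0e7911_co_h61.GapNum

/-!
# The exchange identity: summation over all statuses
-/

set_option autoImplicit false

namespace Pool.Agent.Lib.MP_0e7911_co_h61G

open Finset

section top

/-- the largest element of `S` not exceeding `s` -/
def top (S : Finset ℕ) (s : ℕ) : ℕ := (S.filter (· ≤ s)).sup id

theorem top_spec {S : Finset ℕ} (h0 : 0 ∈ S) (s : ℕ) :
    top S s ∈ S ∧ top S s ≤ s ∧ ∀ u ∈ S, u ≤ s → u ≤ top S s := by
  have hne : (S.filter (· ≤ s)).Nonempty := ⟨0, mem_filter.2 ⟨h0, Nat.zero_le _⟩⟩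
  obtain ⟨a, ha, hb⟩ := exists_mem_eq_sup _ hne id
  have hb' : top S s = a := hb
  rw [hb']
  refine ⟨(mem_filter.1 ha).1, (mem_filter.1 ha).2, fun u hu hus => ?_⟩
  have := Finset.le_sup (f := id) (mem_filter.2 ⟨hu, hus⟩ : u ∈ S.filter (· ≤ s))
  rw [hb] at this
  exact this

theorem top_eq {S : Finset ℕ} {s a : ℕ} (h1 : a ∈ S) (h2 : a ≤ s) (h3 : ∀ u ∈ S, u ≤ s → u ≤ a)
    (h0 : 0 ∈ S) : top S s = a := by
  obtain ⟨k1, k2, k3⟩ := top_spec h0 s
  exact le_antisymm (h3 _ k1 k2) (k3 a h1 h2)

/-- the first element of `S` after `s`, or `d` -/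
noncomputable def nx (d : ℕ) (S : Finset ℕ) (s : ℕ) : ℕ := by
  classical
  exact if h : (S.filter (s < ·)).Nonempty then (S.filter (s < ·)).min' h else d

theorem nx_spec (d : ℕ) (S : Finset ℕ) (s : ℕ) (hs : s < d) (hS : ∀ u ∈ S, u < d) :
    s < nx d S s ∧ nx d S s ≤ d ∧ (nx d S s = d ∨ (nx d S s ∈ S ∧ nx d S s < d)) ∧
      ∀ u ∈ S, s < u → nx d S s ≤ u := by
  classical
  unfold nx
  split_ifs with h
  · have h1 := min'_mem _ h
    rw [mem_filter] at h1
    refine ⟨h1.2, (hS _ h1.1).le, Or.inr ⟨h1.1, hS _ h1.1⟩, fun u hu hsu => ?_⟩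
    exact min'_le _ _ (mem_filter.2 ⟨hu, hsu⟩)
  · refine ⟨hs, le_rfl, Or.inl rfl, fun u hu hsu => ?_⟩
    exact absurd ⟨u, mem_filter.2 ⟨hu, hsu⟩⟩ h

end top

section sums

variable {K : Type*} [Field K] (q : K)

theorem sum_Ico_pow {a b : ℕ} (h : a ≤ b) : ∑ s ∈ Ico a b, q ^ s = q ^ a * qn q (b - a) := by
  rw [Finset.sum_Ico_eq_sum_range]
  unfold qn
  rw [Finset.mul_sum]
  exact sum_congr rfl fun i _ => by rw [pow_add]

open scoped Classical in
/-- the contribution of the element `t` -/
noncomputable def Bt (q : K) (d k : ℕ) (S : Finset ℕ) (t : ℕ) : K :=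
  qn q (k - (S.filter (· < t)).card) *
    ((∑ s ∈ range d, if t ≤ s ∧ ∀ u ∈ S, t < u → s < u then q ^ s else 0) -
      ∑ s ∈ range d, if s < t ∧ ∀ u ∈ S, s < u → t ≤ u then q ^ (s + 1) else 0)

theorem Bt_insert (d k : ℕ) (L : Finset ℕ) (t : ℕ) : Bt q d k (insert t L) t = Bt q d k L t := by
  classical
  unfold Bt
  have e1 : (insert t L).filter (· < t) = L.filter (· < t) := by
    rw [filter_insert, if_neg (lt_irrefl t)]
  rw [e1]
  congr 2
  · refine sum_congr rfl fun s _ => ?_
    congr 1
    simp only [mem_insert, forall_eq_or_imp, lt_irrefl, false_imp_iff, true_and]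
  · refine sum_congr rfl fun s _ => ?_
    congr 1
    simp only [mem_insert, forall_eq_or_imp, le_refl, imp_true_iff, true_and]

theorem Bt_gap (d k : ℕ) (L : Finset ℕ) (lo c : ℕ) (hlo : lo ∈ L)
    (hL : ∀ u ∈ L, u < d) (hc1 : 1 ≤ c) (hc2 : lo + c < nx d L lo) :
    Bt q d k L (lo + c) = qn q (k - (L.filter (· ≤ lo)).card) * q ^ lo *
      (q ^ c * qn q (nx d L lo - lo - c) - q * qn q c) := by
  classical
  obtain ⟨h1, h2, h3, h4⟩ := nx_spec d L lo (hL lo hlo) hL
  unfold Bt
  have e1 : L.filter (· < lo + c) = L.filter (· ≤ lo) := by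
    ext u
    simp only [mem_filter]
    constructor
    · rintro ⟨hu, hu'⟩
      refine ⟨hu, ?_⟩
      by_contra hcon
      have := h4 u hu (by omega)
      omega
    · rintro ⟨hu, hu'⟩
      exact ⟨hu, by omega⟩
  have e2 : ∑ s ∈ range d, (if lo + c ≤ s ∧ ∀ u ∈ L, lo + c < u → s < u then q ^ s else 0) =
      q ^ (lo + c) * qn q (nx d L lo - (lo + c)) := by
    rw [← sum_Ico_pow q hc2.le, ← Finset.sum_filter]
    refine sum_congr ?_ fun _ _ => rfl
    ext s
    simp only [mem_filter, mem_range, mem_Ico]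
    constructor
    · rintro ⟨hs1, hs2, hs3⟩
      refine ⟨hs2, ?_⟩
      rcases h3 with h3 | ⟨h3, _⟩
      · rw [h3]; exact hs1
      · exact hs3 _ h3 hc2
    · rintro ⟨hs1, hs2⟩
      refine ⟨by omega, hs1, fun u hu hu' => ?_⟩
      have := h4 u hu (by omega)
      omega
  have e3 : ∑ s ∈ range d, (if s < lo + c ∧ ∀ u ∈ L, s < u → lo + c ≤ u then q ^ (s + 1) else 0) =
      q * (q ^ lo * qn q c) := by
    have e4 : lo + c - lo = c := by omega
    have := sum_Ico_pow q (show lo ≤ lo + c by omega)
    rw [e4] at this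
    rw [← this, Finset.mul_sum, ← Finset.sum_filter]
    refine sum_congr ?_ fun s _ => by ring
    ext s
    simp only [mem_filter, mem_range, mem_Ico]
    constructor
    · rintro ⟨hs1, hs2, hs3⟩
      refine ⟨?_, hs2⟩
      by_contra hcon
      have := hs3 lo hlo (by omega)
      omega
    · rintro ⟨hs1, hs2⟩
      refine ⟨by omega, hs2, fun u hu hu' => ?_⟩
      have := h4 u hu (by omega)
      omega
  rw [e1, e2, e3, pow_add, Nat.sub_sub]
  ring

/-- All gaps of `L`. -/
theorem gaps (d k : ℕ) (x : Finset ℕ → K) (L : Finset ℕ) (h0 : 0 ∈ L) (hL : ∀ u ∈ L, u < d)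
    (hx : ∀ lo ∈ L, ∑ c ∈ Ico 1 (nx d L lo - lo),
      (q ^ c * qn q (nx d L lo - lo - c) - q * qn q c) * x (insert (lo + c) L) = 0) :
    ∑ t ∈ range d \ L, Bt q d k (insert t L) t * x (insert t L) = 0 := by
  classical
  rw [← Finset.sum_fiberwise_of_maps_to (s := range d \ L) (t := L) (g := top L)
    (fun t _ => (top_spec h0 t).1)]
  refine Finset.sum_eq_zero fun lo hlo => ?_
  obtain ⟨h1, h2, h3, h4⟩ := nx_spec d L lo (hL lo hlo) hL
  have e1 : (range d \ L).filter (fun t => top L t = lo) =
      (Ico 1 (nx d L lo - lo)).map (addLeftEmbedding lo) := by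
    ext t
    simp only [mem_filter, mem_sdiff, mem_range, mem_map, mem_Ico, addLeftEmbedding_apply]
    constructor
    · rintro ⟨⟨ht1, ht2⟩, ht3⟩
      obtain ⟨k1, k2, k3⟩ := top_spec h0 t
      rw [ht3] at k1 k2 k3
      have hne : lo ≠ t := fun h => ht2 (h ▸ hlo)
      refine ⟨t - lo, ⟨by omega, ?_⟩, by omega⟩
      rcases h3 with h3 | ⟨h3, h3'⟩
      · omega
      · by_contra hcon
        have := k3 _ h3 (by omega)
        omega
    · rintro ⟨c, ⟨hc1, hc2⟩, rfl⟩
      refine ⟨⟨by omega, fun h => ?_⟩, top_eq hlo (by omega) (fun u hu hu' => ?_) h0⟩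
      · have := h4 _ h (by omega)
        omega
      · by_contra hcon
        have := h4 u hu (by omega)
        omega
  rw [e1, Finset.sum_map]
  have hterm : ∀ c ∈ Ico 1 (nx d L lo - lo),
      Bt q d k (insert (addLeftEmbedding lo c) L) (addLeftEmbedding lo c) *
        x (insert (addLeftEmbedding lo c) L) =
      qn q (k - (L.filter (· ≤ lo)).card) * q ^ lo *
        ((q ^ c * qn q (nx d L lo - lo - c) - q * qn q c) * x (insert (lo + c) L)) := by
    intro c hc
    rw [mem_Ico] at hc
    rw [addLeftEmbedding_apply, Bt_insert, Bt_gap q d k L lo c hlo hL hc.1 (by omega)]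
    ring
  rw [Finset.sum_congr rfl hterm, ← Finset.mul_sum, hx lo hlo, mul_zero]

/-- Evaluation of the weights for a fixed status. -/
theorem Bt_sum (d k : ℕ) (T : Finset ℕ) (h0 : 0 ∈ T) (hT : ∀ u ∈ T, u < d) (hk : T.card = k) :
    ∑ t ∈ T.erase 0, Bt q d k T t = qn q d -
      qn q k * ∑ s ∈ range d, if (∀ u ∈ T, 0 < u → s < u) then q ^ s else 0 := by
  classical
  unfold Bt
  have hsplit : ∀ t ∈ T.erase 0, qn q (k - (T.filter (· < t)).card) *
      ((∑ s ∈ range d, if t ≤ s ∧ ∀ u ∈ T, t < u → s < u then q ^ s else 0) -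
      ∑ s ∈ range d, if s < t ∧ ∀ u ∈ T, s < u → t ≤ u then q ^ (s + 1) else 0) =
      ∑ s ∈ range d, (q ^ s * (if t ≤ s ∧ ∀ u ∈ T, t < u → s < u then
          qn q (k - (T.filter (· < t)).card) else 0) -
        q ^ (s + 1) * (if s < t ∧ ∀ u ∈ T, s < u → t ≤ u then
          qn q (k - (T.filter (· < t)).card) else 0)) := by
    intro t _
    rw [mul_sub, Finset.mul_sum, Finset.mul_sum, ← Finset.sum_sub_distrib]
    refine sum_congr rfl fun s _ => ?_
    split_ifs <;> ring
  rw [Finset.sum_congr rfl hsplit, Finset.sum_comm]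
  have key : ∀ s ∈ range d, ∑ t ∈ T.erase 0, (q ^ s * (if t ≤ s ∧ ∀ u ∈ T, t < u → s < u then
          qn q (k - (T.filter (· < t)).card) else 0) -
        q ^ (s + 1) * (if s < t ∧ ∀ u ∈ T, s < u → t ≤ u then
          qn q (k - (T.filter (· < t)).card) else 0)) =
      q ^ s - qn q k * (if (∀ u ∈ T, 0 < u → s < u) then q ^ s else 0) := by
    intro s hs
    rw [mem_range] at hs
    rw [Finset.sum_sub_distrib, ← Finset.mul_sum, ← Finset.mul_sum]
    obtain ⟨k1, k2, k3⟩ := top_spec h0 s
    set r := (T.filter (· ≤ s)).card with hr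
    -- the second sum
    have hB : ∑ t ∈ T.erase 0, (if s < t ∧ ∀ u ∈ T, s < u → t ≤ u then
        qn q (k - (T.filter (· < t)).card) else 0) = qn q (k - r) := by
      by_cases hex : ∃ u ∈ T, s < u
      · obtain ⟨u0, hu0, hu0'⟩ := hex
        obtain ⟨n1, n2, n3, n4⟩ := nx_spec d T s hs hT
        have hn : nx d T s ∈ T := by
          rcases n3 with n3 | ⟨n3, _⟩
          · have := n4 u0 hu0 hu0'
            have := hT u0 hu0
            omega
          · exact n3
        rw [Finset.sum_eq_single (nx d T s)]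
        · rw [if_pos ⟨n1, n4⟩]
          congr 2
          rw [hr]
          congr 1
          ext u
          simp only [mem_filter]
          constructor
          · rintro ⟨hu, hu'⟩
            refine ⟨hu, ?_⟩
            by_contra hcon
            have := n4 u hu (by omega)
            omega
          · rintro ⟨hu, hu'⟩
            exact ⟨hu, by omega⟩
        · intro t ht hne
          rw [if_neg]
          rintro ⟨h1, h2⟩
          have h3 := h2 _ hn n1
          have h4 := n4 t (mem_erase.1 ht).2 h1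
          omega
        · intro h
          exact absurd (mem_erase.2 ⟨by omega, hn⟩) h
      · push Not at hex
        have hr' : r = k := by
          rw [hr, ← hk]
          congr 1
          exact Finset.filter_true_of_mem hex
        rw [hr', Nat.sub_self, qn_zero]
        refine Finset.sum_eq_zero fun t ht => ?_
        rw [if_neg]
        rintro ⟨h1, _⟩
        have := hex t (mem_erase.1 ht).2
        omega
    rw [hB]
    by_cases htop : top T s = 0
    · have hall : ∀ u ∈ T, 0 < u → s < u := by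
        intro u hu hu'
        by_contra hcon
        have := k3 u hu (by omega)
        omega
      have hr1 : r = 1 := by
        rw [hr, Finset.card_eq_one]
        refine ⟨0, ?_⟩
        ext u
        simp only [mem_filter, mem_singleton]
        constructor
        · rintro ⟨hu, hu'⟩
          by_contra hcon
          have := hall u hu (by omega)
          omega
        · rintro rfl
          exact ⟨h0, Nat.zero_le _⟩
      rw [if_pos hall, hr1]
      have hA : ∑ t ∈ T.erase 0, (if t ≤ s ∧ ∀ u ∈ T, t < u → s < u then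
          qn q (k - (T.filter (· < t)).card) else 0) = 0 := by
        refine Finset.sum_eq_zero fun t ht => ?_
        rw [if_neg]
        rintro ⟨h1, _⟩
        have := hall t (mem_erase.1 ht).2 (Nat.pos_of_ne_zero (mem_erase.1 ht).1)
        omega
      rw [hA]
      obtain ⟨k', rfl⟩ : ∃ k', k = k' + 1 := ⟨k - 1, by
        have : 0 < T.card := Finset.card_pos.2 ⟨0, h0⟩
        omega⟩
      rw [Nat.add_sub_cancel, qn_succ']
      ring
    · have hnall : ¬ (∀ u ∈ T, 0 < u → s < u) := by
        intro hall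
        have := hall _ k1 (Nat.pos_of_ne_zero htop)
        omega
      have hA : ∑ t ∈ T.erase 0, (if t ≤ s ∧ ∀ u ∈ T, t < u → s < u then
          qn q (k - (T.filter (· < t)).card) else 0) = qn q (k - (r - 1)) := by
        rw [Finset.sum_eq_single (top T s)]
        · rw [if_pos ⟨k2, fun u hu hu' => by
            by_contra hcon
            have := k3 u hu (by omega)
            omega⟩]
          congr 2
          have e1 : T.filter (· < top T s) = (T.filter (· ≤ s)).erase (top T s) := by
            ext u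
            simp only [mem_filter, mem_erase]
            constructor
            · rintro ⟨hu, hu'⟩
              exact ⟨by omega, hu, by omega⟩
            · rintro ⟨hu, hu', hu''⟩
              have := k3 u hu' hu''
              exact ⟨hu', by omega⟩
          rw [e1, Finset.card_erase_of_mem (mem_filter.2 ⟨k1, k2⟩)]
        · intro t ht hne
          rw [if_neg]
          rintro ⟨h1, h2⟩
          have h3 := k3 t (mem_erase.1 ht).2 h1
          have h4 := h2 _ k1 (by omega)
          omega
        · intro h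
          exact absurd (mem_erase.2 ⟨htop, k1⟩) h
      rw [hA, if_neg hnall]
      have hr2 : 2 ≤ r := by
        have h1 : ({0, top T s} : Finset ℕ) ⊆ T.filter (· ≤ s) := by
          intro u hu
          rw [mem_insert, mem_singleton] at hu
          rcases hu with rfl | rfl
          · exact mem_filter.2 ⟨h0, Nat.zero_le _⟩
          · exact mem_filter.2 ⟨k1, k2⟩
        have h2 := Finset.card_le_card h1
        rw [Finset.card_pair (Ne.symm htop)] at h2
        exact h2
      have hrk : r ≤ k := by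
        rw [hr, ← hk]
        exact Finset.card_le_card (Finset.filter_subset _ _)
      have e1 : k - (r - 1) = (k - r) + 1 := by omega
      rw [e1, qn_succ']
      ring
  rw [Finset.sum_congr rfl key, Finset.sum_sub_distrib, Finset.mul_sum]
  rfl

/-- The summation over all statuses. -/
theorem all_statuses (d k : ℕ) (x : Finset ℕ → K)
    (hx : ∀ L : Finset ℕ, 0 ∈ L → (∀ u ∈ L, u < d) → ∀ lo ∈ L,
      ∑ c ∈ Ico 1 (nx d L lo - lo),
      (q ^ c * qn q (nx d L lo - lo - c) - q * qn q c) * x (insert (lo + c) L) = 0) :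
    qn q d * ∑ T ∈ (powersetCard k (range d)).filter (0 ∈ ·), x T =
      qn q k * ∑ T ∈ (powersetCard k (range d)).filter (0 ∈ ·),
        (∑ s ∈ range d, if (∀ u ∈ T, 0 < u → s < u) then q ^ s else 0) * x T := by
  classical
  have h1 : ∑ T ∈ (powersetCard k (range d)).filter (0 ∈ ·),
      (∑ t ∈ T.erase 0, Bt q d k T t) * x T = 0 := by
    have h2 : ∑ T ∈ (powersetCard k (range d)).filter (0 ∈ ·),
        (∑ t ∈ T.erase 0, Bt q d k T t) * x T =
        ∑ p ∈ ((powersetCard k (range d)).filter (0 ∈ ·)).sigma (fun T => T.erase 0),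
          Bt q d k p.1 p.2 * x p.1 := by
      rw [Finset.sum_sigma]
      exact sum_congr rfl fun T _ => by rw [Finset.sum_mul]
    have h3 : ∑ p ∈ ((powersetCard k (range d)).filter (0 ∈ ·)).sigma (fun T => T.erase 0),
          Bt q d k p.1 p.2 * x p.1 =
        ∑ p ∈ ((powersetCard (k - 1) (range d)).filter (0 ∈ ·)).sigma (fun L => range d \ L),
          Bt q d k (insert p.2 p.1) p.2 * x (insert p.2 p.1) := by
      refine Finset.sum_nbij' (fun p => ⟨p.1.erase p.2, p.2⟩) (fun p => ⟨insert p.2 p.1, p.2⟩)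
        ?_ ?_ ?_ ?_ ?_
      · rintro ⟨T, t⟩ hp
        simp only [mem_sigma, mem_filter, mem_powersetCard, mem_erase, mem_sdiff, mem_range] at hp ⊢
        obtain ⟨⟨⟨hT, hc⟩, h0⟩, ht0, ht⟩ := hp
        refine ⟨⟨⟨(Finset.erase_subset _ _).trans hT, ?_⟩, Ne.symm ht0, h0⟩,
          mem_range.1 (hT ht), fun h => h.1 rfl⟩
        rw [Finset.card_erase_of_mem ht, hc]
      · rintro ⟨L, t⟩ hp
        simp only [mem_sigma, mem_filter, mem_powersetCard, mem_erase, mem_sdiff, mem_range,
          mem_insert] at hp ⊢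
        obtain ⟨⟨⟨hL, hc⟩, h0⟩, ht, htL⟩ := hp
        refine ⟨⟨⟨?_, ?_⟩, Or.inr h0⟩, ?_, by simp⟩
        · intro u hu
          rcases mem_insert.1 hu with rfl | hu
          · exact mem_range.2 ht
          · exact hL hu
        · rw [Finset.card_insert_of_notMem htL, hc]
          have : 0 < L.card := Finset.card_pos.2 ⟨0, h0⟩
          omega
        · rintro rfl
          exact htL h0
      · rintro ⟨T, t⟩ hp
        simp only [mem_sigma, mem_filter, mem_powersetCard, mem_erase] at hp
        simp only [Finset.insert_erase hp.2.2]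
      · rintro ⟨L, t⟩ hp
        simp only [mem_sigma, mem_filter, mem_powersetCard, mem_sdiff] at hp
        simp only [Finset.erase_insert hp.2.2]
      · rintro ⟨T, t⟩ hp
        simp only [mem_sigma, mem_filter, mem_powersetCard, mem_erase] at hp
        simp only [Finset.insert_erase hp.2.2]
    rw [h2, h3, Finset.sum_sigma]
    refine Finset.sum_eq_zero fun L hL => ?_
    rw [mem_filter, mem_powersetCard] at hL
    have hLd : ∀ u ∈ L, u < d := fun u hu => mem_range.1 (hL.1.1 hu)
    exact gaps q d k x L hL.2 hLd (fun lo hlo => hx L hL.2 hLd lo hlo)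
  have h4 : ∀ T ∈ (powersetCard k (range d)).filter (0 ∈ ·),
      (∑ t ∈ T.erase 0, Bt q d k T t) * x T = qn q d * x T -
        qn q k * ((∑ s ∈ range d, if (∀ u ∈ T, 0 < u → s < u) then q ^ s else 0) * x T) := by
    intro T hT
    rw [mem_filter, mem_powersetCard] at hT
    rw [Bt_sum q d k T hT.2 (fun u hu => mem_range.1 (hT.1.1 hu)) hT.1.2]
    ring
  rw [Finset.sum_congr rfl h4, Finset.sum_sub_distrib, ← Finset.mul_sum, ← Finset.mul_sum] at h1
  exact sub_eq_zero.1 h1

end sums

end Pool.Agent.Lib.MP_0e7911_co_h61G
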