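import Pool.Agent.Lib.MP_0e7911_co_h61.GapWin
import Pool.Agent.Lib.MP_0e7911_co_h61.GapSum

/-!
# The gap identity
-/

set_option autoImplicit false

namespace Pool.Agent.Lib.MP_0e7911_co_h50

open Finset Pool.Agent.Lib.MP_0e7911_co_h61G

section

variable {K : Type*} [Field K] {q : K} {e : ℕ}

theorem St_card (k : ℕ) (hk : k ≤ e + 1) (c : Equiv.Perm (Fin (e + 1))) : (St k c).card = k := by
  unfold St
  rw [card_map]
  have h1 : (univ.filter (fun t : Fin (e + 1) => ((c⁻¹ t : Fin (e + 1)) : ℕ) < k)) =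
      (univ.filter (fun p : Fin (e + 1) => (p : ℕ) < k)).map c.toEmbedding := by
    ext t
    simp only [mem_filter, mem_univ, true_and, mem_map_equiv]
    rfl
  rw [h1, card_map]
  have h2 : (univ.filter (fun p : Fin (e + 1) => (p : ℕ) < k)) =
      (univ : Finset (Fin k)).map (Fin.castLEEmb hk) := by
    ext p
    simp only [mem_filter, mem_univ, true_and, mem_map]
    constructor
    · intro h
      exact ⟨⟨p, h⟩, Fin.ext rfl⟩
    · rintro ⟨a, rfl⟩
      exact a.2
  rw [h2, card_map, card_univ, Fintype.card_fin]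

theorem sum_xT (X : Mt K e) (k : ℕ) (hk : k ≤ e + 1) (F : Finset ℕ → K) :
    ∑ T ∈ (powersetCard k (range (e + 1))).filter (0 ∈ ·), F T * xT k X T =
      ∑ c : Equiv.Perm (Fin (e + 1)), if 0 ∈ St k c then
        F (St k c) * X ((finRotate (e + 1))⁻¹ * c) c else 0 := by
  classical
  unfold xT
  simp only [Finset.mul_sum]
  rw [Finset.sum_comm]
  refine sum_congr rfl fun c _ => ?_
  have hc : St k c ∈ powersetCard k (range (e + 1)) :=
    mem_powersetCard.2 ⟨St_sub k c, St_card k hk c⟩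
  by_cases h0 : 0 ∈ St k c
  · rw [if_pos h0, Finset.sum_eq_single (St k c)]
    · rw [if_pos rfl]
    · intro T _ hne
      rw [if_neg (Ne.symm hne), mul_zero]
    · intro h
      exact absurd (mem_filter.2 ⟨hc, h0⟩) h
  · rw [if_neg h0]
    refine Finset.sum_eq_zero fun T hT => ?_
    rw [mem_filter] at hT
    rw [if_neg, mul_zero]
    rintro rfl
    exact h0 hT.2

theorem sum_low (hq : q ≠ 0) (X : Mt K e) (hX : Comm q X) (k : ℕ) (hk : k ≤ e + 1) :
    ∑ c : Equiv.Perm (Fin (e + 1)), (if 0 ∈ St k c then X ((finRotate (e + 1))⁻¹ * c) c else 0) =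
      qn q k * Lam 0 X := by
  have h1 : ∀ c : Equiv.Perm (Fin (e + 1)),
      (if 0 ∈ St k c then X ((finRotate (e + 1))⁻¹ * c) c else 0) =
      ∑ r ∈ range k, if h : r < e + 1 then
        (if ((c ⟨r, h⟩ : Fin (e + 1)) : ℕ) = 0 then X ((finRotate (e + 1))⁻¹ * c) c else 0)
        else 0 := by
    intro c
    by_cases h0 : 0 ∈ St k c
    · rw [if_pos h0]
      rw [mem_St (Nat.succ_pos e)] at h0
      set p := c⁻¹ (⟨0, Nat.succ_pos e⟩ : Fin (e + 1)) with hp
      have hcp : c p = ⟨0, Nat.succ_pos e⟩ := by rw [hp]; simp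
      rw [Finset.sum_eq_single (p : ℕ)]
      · rw [dif_pos p.2]
        have : (⟨(p : ℕ), p.2⟩ : Fin (e + 1)) = p := rfl
        rw [this, hcp, if_pos rfl]
      · intro r hr hne
        split_ifs with h2 h3
        · exfalso
          apply hne
          have h4 : c ⟨r, h2⟩ = c p := by rw [hcp]; exact Fin.ext h3
          have h5 := c.injective h4
          rw [← h5]
        · rfl
        · rfl
      · intro h
        exact absurd (mem_range.2 h0) h
    · rw [if_neg h0]
      symm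
      refine Finset.sum_eq_zero fun r hr => ?_
      rw [mem_range] at hr
      split_ifs with h2 h3
      · exfalso
        apply h0
        rw [mem_St (Nat.succ_pos e)]
        have h4 : c ⟨r, h2⟩ = ⟨0, Nat.succ_pos e⟩ := Fin.ext h3
        rw [← h4]
        simpa using hr
      · rfl
      · rfl
  rw [Finset.sum_congr rfl (fun c _ => h1 c), Finset.sum_comm]
  unfold qn
  rw [Finset.sum_mul]
  refine sum_congr rfl fun r hr => ?_
  rw [mem_range] at hr
  have h2 : r < e + 1 := by omega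
  have h3 := Lam_shift hq X hX ⟨r, h2⟩
  have h4 : Lam (⟨r, h2⟩ : Fin (e + 1)) X = q ^ r * Lam 0 X := h3
  rw [← h4]
  unfold Lam
  refine sum_congr rfl fun c _ => ?_
  rw [dif_pos h2]

end

/-- The gap identity: the weight `[gap]` of the first return averages to the cut functional. -/
theorem gap {K : Type*} [Field K] {e : ℕ} (q : K) (hq : q ≠ 0)
    (X : Matrix (Equiv.Perm (Fin (e + 1))) (Equiv.Perm (Fin (e + 1))) K) (hX : Comm q X)
    (k : ℕ) (hk : k ≤ e + 1) (hkq : ∑ i ∈ range k, q ^ i ≠ 0)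
    (hrow : ∀ (i : ℕ) (h : i + 1 < e + 1), i + 1 < k → ∀ c' c,
      X (c' * sw (e + 1) i h) c = X c' c) :
    ∑ i ∈ range (e + 1), q ^ i * ∑ c : Equiv.Perm (Fin (e + 1)),
      (if ((c⁻¹ 0 : Fin (e + 1)) : ℕ) < k ∧ ∀ j : Fin (e + 1), 0 < (j : ℕ) → (j : ℕ) ≤ i →
          ¬ ((c⁻¹ j : Fin (e + 1)) : ℕ) < k then X ((finRotate (e + 1))⁻¹ * c) c else 0) =
      (∑ i ∈ range (e + 1), q ^ i) * Lam 0 X := by
  classical
  have hA := all_statuses q (e + 1) k (xT k X) (fun L h0 hL lo hlo => by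
    obtain ⟨n1, n2, n3, n4⟩ := nx_spec (e + 1) L lo (hL lo hlo) hL
    exact window_mat hq X hX hrow L h0 lo (nx (e + 1) L lo) hlo n2 n3 (fun t ht1 ht2 ht => by
      have := n4 t ht ht1
      omega))
  have h1 : ∑ T ∈ (powersetCard k (range (e + 1))).filter (0 ∈ ·), xT k X T =
      qn q k * Lam 0 X := by
    rw [← sum_low hq X hX k hk]
    have := sum_xT X k hk (fun _ => 1)
    simp only [one_mul] at this
    exact this
  have h2 : ∑ T ∈ (powersetCard k (range (e + 1))).filter (0 ∈ ·),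
        (∑ s ∈ range (e + 1), if (∀ u ∈ T, 0 < u → s < u) then q ^ s else 0) * xT k X T =
      ∑ i ∈ range (e + 1), q ^ i * ∑ c : Equiv.Perm (Fin (e + 1)),
      (if ((c⁻¹ 0 : Fin (e + 1)) : ℕ) < k ∧ ∀ j : Fin (e + 1), 0 < (j : ℕ) → (j : ℕ) ≤ i →
          ¬ ((c⁻¹ j : Fin (e + 1)) : ℕ) < k then X ((finRotate (e + 1))⁻¹ * c) c else 0) := by
    rw [sum_xT X k hk]
    simp only [Finset.mul_sum]
    rw [Finset.sum_comm]
    refine sum_congr rfl fun c _ => ?_
    have h3 : (0 ∈ St k c) ↔ ((c⁻¹ 0 : Fin (e + 1)) : ℕ) < k := mem_St (Nat.succ_pos e)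
    by_cases h0 : 0 ∈ St k c
    · rw [if_pos h0, Finset.sum_mul]
      refine sum_congr rfl fun i hi => ?_
      have h4 : (∀ u ∈ St k c, 0 < u → i < u) ↔
          (((c⁻¹ 0 : Fin (e + 1)) : ℕ) < k ∧ ∀ j : Fin (e + 1), 0 < (j : ℕ) → (j : ℕ) ≤ i →
          ¬ ((c⁻¹ j : Fin (e + 1)) : ℕ) < k) := by
        constructor
        · intro h
          refine ⟨h3.1 h0, fun j hj1 hj2 hj3 => ?_⟩
          have := h (j : ℕ) ((mem_St j.2).2 hj3) hj1
          omega
        · rintro ⟨_, h⟩ u hu hu'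
          by_contra hcon
          have hlt := St_lt hu
          exact h ⟨u, hlt⟩ hu' (by simpa using hcon) ((mem_St hlt).1 hu)
      by_cases h5 : ∀ u ∈ St k c, 0 < u → i < u
      · rw [if_pos h5, if_pos (h4.1 h5)]
      · rw [if_neg h5, if_neg (fun h => h5 (h4.2 h)), zero_mul, mul_zero]
    · rw [if_neg h0]
      symm
      refine Finset.sum_eq_zero fun i _ => ?_
      rw [if_neg (fun h => h0 (h3.2 h.1)), mul_zero]
  rw [h1, h2] at hA
  have hkq' : qn q k ≠ 0 := hkq
  apply mul_left_cancel₀ hkq'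
  rw [← hA]
  unfold qn
  ring

end Pool.Agent.Lib.MP_0e7911_co_h50
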