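import Pool.Agent.Lib.MP_0e7911_co_h88.M5

/-!
# M7a: rotating the last element of a table to the front, and the window sum
-/

set_option autoImplicit false

namespace Pool.Agent.Lib.MP_0e7911_co_h50

open Finset

namespace H61W

/-- cyclic successor -/
def rot (e : ℕ) : Equiv.Perm (Fin (e + 1)) := Equiv.addRight 1

lemma rot_apply {e : ℕ} (t : Fin (e + 1)) : rot e t = t + 1 := rfl

lemma rot_inv_add {e : ℕ} (t : Fin (e + 1)) : (rot e)⁻¹ (t + 1) = t := by
  rw [← rot_apply]; exact (rot e).symm_apply_apply t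

lemma last_add_one (e : ℕ) : Fin.last e + 1 = 0 := by
  simp

lemma rot_inv_zero {e : ℕ} : (rot e)⁻¹ 0 = Fin.last e := by
  rw [← last_add_one e]; exact rot_inv_add _

lemma rot_inv_succ {e : ℕ} (u : Fin e) : (rot e)⁻¹ u.succ = u.castSucc := by
  have h : u.castSucc + 1 = u.succ := by
    simp
  rw [← h]; exact rot_inv_add _

/-- number of pairs `s < t` with `y s < al (x t)` -/
def LT {e : ℕ} (al : Fin (e + 1) → ℕ) (x y : Fin (e + 1) → Fin (e + 1)) : ℕ :=
  (univ.filter (fun st : Fin (e + 1) × Fin (e + 1) =>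
    st.1 < st.2 ∧ (y st.1 : ℕ) < al (x st.2))).card

/-- number of pairs `s ≤ t` with `y s < al (x t)` -/
def LE {e : ℕ} (al : Fin (e + 1) → ℕ) (x y : Fin (e + 1) → Fin (e + 1)) : ℕ :=
  (univ.filter (fun st : Fin (e + 1) × Fin (e + 1) =>
    st.1 ≤ st.2 ∧ (y st.1 : ℕ) < al (x st.2))).card

lemma card_pairs_left {α β : Type*} [Fintype α] [Fintype β] (P : α → β → Prop)
    [∀ a b, Decidable (P a b)] :
    (univ.filter (fun st : α × β => P st.1 st.2)).card =
      ∑ s, (univ.filter (fun t => P s t)).card := by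
  rw [card_filter, ← univ_product_univ, sum_product]
  simp only [card_filter]

lemma card_pairs_right {α β : Type*} [Fintype α] [Fintype β] (P : α → β → Prop)
    [∀ a b, Decidable (P a b)] :
    (univ.filter (fun st : α × β => P st.1 st.2)).card =
      ∑ t, (univ.filter (fun s => P s t)).card := by
  rw [card_filter, ← univ_product_univ, sum_product_right]
  simp only [card_filter]

lemma LE_rot_right {e : ℕ} (al : Fin (e + 1) → ℕ) (x : Equiv.Perm (Fin (e + 1)))
    (y : Equiv.Perm (Fin (e + 1))) :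
    LE al x (y * (rot e)⁻¹ : Equiv.Perm (Fin (e + 1))) =
      LT al x y + predc al (y (Fin.last e)) := by
  unfold LE LT
  rw [card_pairs_left (fun s t => s ≤ t ∧ (((y * (rot e)⁻¹ : Equiv.Perm (Fin (e + 1))) s : ℕ)) <
    al (x t)), card_pairs_left (fun s t => s < t ∧ ((y s : ℕ)) < al (x t)),
    Fin.sum_univ_succ, Fin.sum_univ_castSucc]
  have h1 : (univ.filter (fun t : Fin (e + 1) => Fin.last e < t ∧
      ((y (Fin.last e) : ℕ)) < al (x t))).card = 0 := by
    rw [card_eq_zero, filter_eq_empty_iff]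
    rintro t - ⟨h, -⟩
    exact absurd (Fin.le_last t) (not_le.mpr h)
  have h2 : (univ.filter (fun t : Fin (e + 1) => 0 ≤ t ∧
      ((((y * (rot e)⁻¹ : Equiv.Perm (Fin (e + 1))) 0 : Fin (e + 1)) : ℕ)) < al (x t))).card =
      predc al (y (Fin.last e)) := by
    unfold predc
    refine card_bij (fun t _ => x t) ?_ ?_ ?_
    · intro t ht
      rw [mem_filter] at ht ⊢
      refine ⟨mem_univ _, ?_⟩
      have := ht.2.2
      rwa [Equiv.Perm.mul_apply, rot_inv_zero] at this
    · intro a _ b _ h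
      exact x.injective h
    · intro p hp
      rw [mem_filter] at hp
      refine ⟨x.symm p, ?_, x.apply_symm_apply p⟩
      rw [mem_filter, Equiv.Perm.mul_apply, rot_inv_zero, x.apply_symm_apply]
      exact ⟨mem_univ _, Fin.zero_le _, hp.2⟩
  rw [h1, h2, add_zero, add_comm]
  congr 1
  refine sum_congr rfl (fun u _ => ?_)
  congr 1
  ext t
  simp only [mem_filter, mem_univ, true_and, Equiv.Perm.mul_apply, rot_inv_succ,
    Fin.castSucc_lt_iff_succ_le]

lemma card_lt_perm {e : ℕ} (y : Equiv.Perm (Fin (e + 1))) (k : ℕ) (hk : k ≤ e + 1) :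
    (univ.filter (fun s : Fin (e + 1) => (y s : ℕ) < k)).card = k := by
  have : (univ.filter (fun s : Fin (e + 1) => (y s : ℕ) < k)).card =
      (univ.filter (fun s : Fin (e + 1) => (s : ℕ) < k)).card := by
    refine card_bij (fun t _ => y t) ?_ ?_ ?_
    · intro t ht
      rw [mem_filter] at ht ⊢
      exact ⟨mem_univ _, ht.2⟩
    · intro a _ b _ h
      exact y.injective h
    · intro p hp
      rw [mem_filter] at hp
      refine ⟨y.symm p, ?_, y.apply_symm_apply p⟩
      rw [mem_filter, y.apply_symm_apply]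
      exact ⟨mem_univ _, hp.2⟩
  rw [this]
  rw [Fin.card_filter_val_lt]
  exact min_eq_right hk

lemma LE_rot_left {e : ℕ} (al : Fin (e + 1) → ℕ) (hle : ∀ a, al a ≤ e + 1)
    (x y : Equiv.Perm (Fin (e + 1))) :
    LE al x y = LT al (x * (rot e)⁻¹ : Equiv.Perm (Fin (e + 1))) y + al (x (Fin.last e)) := by
  unfold LE LT
  rw [card_pairs_right (fun s t => s ≤ t ∧ ((y s : ℕ)) < al (x t)),
    card_pairs_right (fun s t => s < t ∧ ((y s : ℕ)) <
      al ((x * (rot e)⁻¹ : Equiv.Perm (Fin (e + 1))) t)),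
    Fin.sum_univ_succ (fun t => (univ.filter (fun s => s < t ∧ ((y s : ℕ)) <
      al ((x * (rot e)⁻¹ : Equiv.Perm (Fin (e + 1))) t))).card), Fin.sum_univ_castSucc]
  have h1 : (univ.filter (fun s : Fin (e + 1) => s < 0 ∧ ((y s : ℕ)) <
      al ((x * (rot e)⁻¹ : Equiv.Perm (Fin (e + 1))) 0))).card = 0 := by
    rw [card_eq_zero, filter_eq_empty_iff]
    rintro t - ⟨h, -⟩
    exact absurd (Fin.zero_le t) (not_le.mpr h)
  have h2 : (univ.filter (fun s : Fin (e + 1) => s ≤ Fin.last e ∧ ((y s : ℕ)) <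
      al (x (Fin.last e)))).card = al (x (Fin.last e)) := by
    rw [← card_lt_perm y (al (x (Fin.last e))) (hle _)]
    congr 1
    · ext s
      simp only [mem_filter, mem_univ, true_and, Fin.le_last]
      rw [card_lt_perm y (al (x (Fin.last e))) (hle _)]
  rw [h1, h2, zero_add]
  congr 1
  refine sum_congr rfl (fun u _ => ?_)
  congr 1
  ext t
  simp only [mem_filter, mem_univ, true_and, Equiv.Perm.mul_apply, rot_inv_succ,
    Fin.le_castSucc_iff]

lemma card_gt_last {e : ℕ} (x : Equiv.Perm (Fin (e + 1))) :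
    (univ.filter (fun s : Fin (e + 1) => s < Fin.last e ∧ x (Fin.last e) < x s)).card =
      e - ((x (Fin.last e) : Fin (e + 1)) : ℕ) := by
  have h1 : (univ.filter (fun s : Fin (e + 1) => s < Fin.last e ∧ x (Fin.last e) < x s)) =
      (univ.filter (fun s : Fin (e + 1) =>
        ((x s : Fin (e + 1)) : ℕ) < ((x (Fin.last e) : Fin (e + 1)) : ℕ) + 1))ᶜ := by
    ext s
    simp only [mem_filter, mem_univ, true_and, mem_compl, not_lt, Fin.lt_def]
    constructor
    · rintro ⟨-, h⟩
      exact h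
    · intro h
      refine ⟨?_, h⟩
      have hs : s ≠ Fin.last e := by
        rintro rfl
        omega
      have := Fin.val_lt_last hs
      simpa using this
  rw [h1, card_compl, card_lt_perm x _ (by have := (x (Fin.last e)).2; omega), Fintype.card_fin]
  omega

lemma inv_rot {e : ℕ} (x : Equiv.Perm (Fin (e + 1))) :
    inv x + ((x (Fin.last e) : Fin (e + 1)) : ℕ) =
      inv (x * (rot e)⁻¹) + (e - ((x (Fin.last e) : Fin (e + 1)) : ℕ)) := by
  unfold inv
  rw [card_pairs_right (fun s t => s < t ∧ x t < x s),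
    card_pairs_right (fun s t => s < t ∧ (x * (rot e)⁻¹ : Equiv.Perm (Fin (e + 1))) t <
      (x * (rot e)⁻¹ : Equiv.Perm (Fin (e + 1))) s),
    Fin.sum_univ_castSucc, card_gt_last,
    Fin.sum_univ_succ (fun t => (univ.filter (fun s => s < t ∧
      (x * (rot e)⁻¹ : Equiv.Perm (Fin (e + 1))) t <
      (x * (rot e)⁻¹ : Equiv.Perm (Fin (e + 1))) s)).card)]
  have h1 : (univ.filter (fun s : Fin (e + 1) => s < 0 ∧
      (x * (rot e)⁻¹ : Equiv.Perm (Fin (e + 1))) 0 <
      (x * (rot e)⁻¹ : Equiv.Perm (Fin (e + 1))) s)).card = 0 := by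
    rw [card_eq_zero, filter_eq_empty_iff]
    rintro t - ⟨h, -⟩
    exact absurd (Fin.zero_le t) (not_le.mpr h)
  rw [h1, zero_add]
  have h2 : ∀ v : Fin e, (univ.filter (fun s : Fin (e + 1) => s < v.succ ∧
      (x * (rot e)⁻¹ : Equiv.Perm (Fin (e + 1))) v.succ <
      (x * (rot e)⁻¹ : Equiv.Perm (Fin (e + 1))) s)).card =
      (if x v.castSucc < x (Fin.last e) then 1 else 0) +
      (univ.filter (fun s : Fin (e + 1) => s < v.castSucc ∧ x v.castSucc < x s)).card := by
    intro v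
    rw [card_filter, card_filter, Fin.sum_univ_succ, Fin.sum_univ_castSucc]
    have hl : ¬ (Fin.last e < v.castSucc) := not_lt.mpr (Fin.le_last _)
    simp only [Equiv.Perm.mul_apply, rot_inv_zero, rot_inv_succ, Fin.succ_pos, true_and,
      Fin.succ_lt_succ_iff, Fin.castSucc_lt_castSucc_iff, hl, false_and, if_false, add_zero]
  have h3 : (∑ v : Fin e, (if x v.castSucc < x (Fin.last e) then 1 else 0)) =
      ((x (Fin.last e) : Fin (e + 1)) : ℕ) := by
    have := card_lt_perm x ((x (Fin.last e) : Fin (e + 1)) : ℕ) (x (Fin.last e)).2.le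
    rw [card_filter, Fin.sum_univ_castSucc] at this
    simp only [lt_irrefl, if_false, add_zero] at this
    rw [← this]
    rfl
  rw [sum_congr rfl (fun v _ => h2 v), sum_add_distrib, h3]
  ring

/-- move the last element of the table to the front -/
def Phi (b e : ℕ) :
    (Fin (b + 1) → Equiv.Perm (Fin (e + 1))) ≃ (Fin (b + 1) → Equiv.Perm (Fin (e + 1))) where
  toFun τ := Fin.cons (τ (Fin.last b) * (rot e)⁻¹) (fun i => τ i.castSucc)
  invFun τ := Fin.snoc (fun i : Fin b => τ i.succ) (τ 0 * rot e)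
  left_inv τ := by
    funext i
    refine Fin.lastCases ?_ (fun i => ?_) i
    · simp
    · simp
  right_inv τ := by
    funext i
    refine Fin.cases ?_ (fun i => ?_) i
    · simp
    · simp

lemma Phi_zero {b e : ℕ} (τ : Fin (b + 1) → Equiv.Perm (Fin (e + 1))) :
    Phi b e τ 0 = τ (Fin.last b) * (rot e)⁻¹ := rfl

lemma Phi_succ {b e : ℕ} (τ : Fin (b + 1) → Equiv.Perm (Fin (e + 1))) (i : Fin b) :
    Phi b e τ i.succ = τ i.castSucc := rfl

lemma TT_def {b e : ℕ} (al : ℕ → Fin (e + 1) → ℕ) (τ : Fin (b + 1) → Equiv.Perm (Fin (e + 1))) :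
    TT al τ = (∑ i, inv (τ i)) + (∑ i : Fin b, LT (al i) (τ i.castSucc) (τ i.succ)) +
      LE (al b) (τ (Fin.last b)) (τ 0) := rfl

lemma TT_rot {b e : ℕ} (al : ℕ → Fin (e + 1) → ℕ) (hper : ∀ i, al (i + (b + 1)) = al i)
    (hle : ∀ i a, al i a ≤ e + 1) (j : ℕ) (τ : Fin (b + 1) → Equiv.Perm (Fin (e + 1))) :
    TT (fun i => al (i + j)) τ + 2 * ((τ (Fin.last b) (Fin.last e) : Fin (e + 1)) : ℕ) +
      predc (al (j + b + b)) (τ (Fin.last b) (Fin.last e)) =
    TT (fun i => al (i + (j + b))) (Phi b e τ) + e + al (j + b) (τ (Fin.last b) (Fin.last e)) := by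
  have hI := inv_rot (τ (Fin.last b))
  have ha : ((τ (Fin.last b) (Fin.last e) : Fin (e + 1)) : ℕ) ≤ e :=
    Nat.lt_succ_iff.mp (τ (Fin.last b) (Fin.last e)).2
  rcases b with _ | b
  · have s1 : (∑ i : Fin (0 + 1), inv (τ i)) = inv (τ 0) := Fin.sum_univ_one _
    have s2 : (∑ i : Fin (0 + 1), inv (Phi 0 e τ i)) = inv (τ 0 * (rot e)⁻¹) :=
      Fin.sum_univ_one _
    rw [TT_def, TT_def, s1, s2]
    simp only [Fin.sum_univ_zero, zero_add, add_zero]
    have e1 : (Phi 0 e τ) (Fin.last 0) = τ 0 * (rot e)⁻¹ := rfl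
    have e2 : (Phi 0 e τ) 0 = τ 0 * (rot e)⁻¹ := rfl
    have e3 : (Fin.last 0 : Fin (0 + 1)) = 0 := rfl
    rw [e1, e2, e3, LE_rot_left (al j) (hle j), LE_rot_right]
    rw [e3] at hI ha
    omega
  · rw [TT_def, TT_def, Fin.sum_univ_castSucc (fun i => inv (τ i)),
      Fin.sum_univ_succ (fun i => inv (Phi (b + 1) e τ i)),
      Fin.sum_univ_castSucc (fun i : Fin (b + 1) => LT _ (τ i.castSucc) (τ i.succ)),
      Fin.sum_univ_succ (fun i : Fin (b + 1) => LT _ (Phi (b + 1) e τ i.castSucc) _)]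
    simp only [Phi_succ, ← Fin.succ_castSucc, Fin.castSucc_zero, Phi_zero, Fin.succ_last,
      Fin.val_succ, Fin.val_castSucc, Fin.val_zero, Fin.val_last, zero_add]
    have e1 : Phi (b + 1) e τ (Fin.last (b + 1)) = τ (Fin.last b).castSucc := by
      rw [← Fin.succ_last]; rfl
    have h1 : al (j + (b + 1) + (b + 1)) = al (b + j) := by
      rw [← hper (b + j)]; congr 1; ring
    have h2 : ∀ x : Fin b, al ((x : ℕ) + 1 + (j + (b + 1))) = al ((x : ℕ) + j) := by
      intro x
      rw [← hper ((x : ℕ) + j)]; congr 1; ring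
    have h3 : al (b + 1 + (j + (b + 1))) = al (b + j) := by
      rw [← hper (b + j)]; congr 1; ring
    have h4 : al (b + 1 + j) = al (j + (b + 1)) := by congr 1; ring
    rw [e1, h1, h3, h4, LE_rot_left (al (j + (b + 1))) (hle _), LE_rot_right]
    simp only [h2, Nat.succ_eq_add_one]
    omega


lemma Adj_rot {b e : ℕ} (al : ℕ → Fin (e + 1) → ℕ) (hper : ∀ i, al (i + (b + 1)) = al i)
    (j : ℕ) (τ : Fin (b + 1) → Equiv.Perm (Fin (e + 1))) :
    Adj (fun i => al (i + (j + b))) (Phi b e τ) ↔ Adj (fun i => al (i + j)) τ := by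
  rcases b with _ | b
  · unfold Adj
    have e2 : ∀ t, (Phi 0 e τ) 0 t = τ 0 ((rot e)⁻¹ t) := fun _ => rfl
    have e3 : (Fin.last 0 : Fin (0 + 1)) = 0 := rfl
    simp only [IsEmpty.forall_iff, true_and, e2, e3, rot_inv_add, add_zero]
    constructor
    · intro h t
      have := h (t + 1)
      rwa [rot_inv_add] at this
    · intro h t
      have := h ((rot e)⁻¹ t)
      have h2 : (rot e)⁻¹ t + 1 = t := (rot e).apply_symm_apply t
      rwa [h2] at this
  · unfold Adj
    have e1 : Phi (b + 1) e τ (Fin.last (b + 1)) = τ (Fin.last b).castSucc := by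
      rw [← Fin.succ_last]; rfl
    have h2 : ∀ x : ℕ, al (x + 1 + (j + (b + 1))) = al (x + j) := by
      intro x
      rw [← hper (x + j)]; congr 1; ring
    have h4 : al (b + 1 + j) = al (j + (b + 1)) := by congr 1; ring
    rw [Fin.forall_fin_succ (P := fun i : Fin (b + 1) => ∀ t : Fin (e + 1),
        ((Phi (b + 1) e τ i.succ t : Fin (e + 1)) : ℕ) <
        (fun i => al (i + (j + (b + 1)))) i (Phi (b + 1) e τ i.castSucc t)),
      Fin.forall_fin_succ' (P := fun i : Fin (b + 1) => ∀ t : Fin (e + 1),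
        ((τ i.succ t : Fin (e + 1)) : ℕ) < (fun i => al (i + j)) i (τ i.castSucc t))]
    simp only [Phi_succ, ← Fin.succ_castSucc, Fin.castSucc_zero, Phi_zero, Fin.succ_last,
      Fin.val_succ, Fin.val_castSucc, Fin.val_zero, Fin.val_last, zero_add, e1,
      Equiv.Perm.mul_apply, rot_inv_add, h2, h4, Nat.succ_eq_add_one]
    constructor
    · rintro ⟨⟨ha, hb⟩, hc⟩
      refine ⟨⟨hb, hc⟩, fun t => ?_⟩
      have := ha (t + 1)
      rwa [rot_inv_add] at this
    · rintro ⟨⟨hb, hc⟩, ha⟩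
      refine ⟨⟨fun t => ?_, hb⟩, hc⟩
      have := ha ((rot e)⁻¹ t)
      have h2 : (rot e)⁻¹ t + 1 = t := (rot e).apply_symm_apply t
      rwa [h2] at this

end H61W

theorem last_sum {K : Type*} [Field K] (q : K) (hq : q ≠ 0) {b e : ℕ}
    (al : ℕ → Fin (e + 1) → ℕ) (hmono : ∀ i, Monotone (al i))
    (hper : ∀ i, al (i + (b + 1)) = al i) (hle : ∀ i a, al i a ≤ e + 1) (A : K)
    (hA : ∀ (j : ℕ) (r : Fin (e + 1)),
      PP (b := b) q (fun i => al (i + j)) r = q ^ ((r : ℕ) + predc (al (j + b)) r) * A)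
    (j : ℕ) (a : Fin (e + 1)) :
    (∑ τ : Fin (b + 1) → Equiv.Perm (Fin (e + 1)),
      if Adj (fun i => al (i + j)) τ ∧ τ (Fin.last b) (Fin.last e) = a
        then q ^ TT (fun i => al (i + j)) τ else 0) =
      q ^ (e - (a : ℕ) + al (j + b) a) * A := by
  have hae : (a : ℕ) ≤ e := Nat.lt_succ_iff.mp a.2
  have key : q ^ (2 * (a : ℕ) + predc (al (j + b + b)) a) *
      (∑ τ : Fin (b + 1) → Equiv.Perm (Fin (e + 1)),
      if Adj (fun i => al (i + j)) τ ∧ τ (Fin.last b) (Fin.last e) = a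
        then q ^ TT (fun i => al (i + j)) τ else 0) =
      q ^ (e + al (j + b) a) * PP (b := b) q (fun i => al (i + (j + b))) a := by
    unfold PP
    rw [← Equiv.sum_comp (H61W.Phi b e) (fun τ => if Adj (fun i => al (i + (j + b))) τ ∧
      τ 0 0 = a then q ^ TT (fun i => al (i + (j + b))) τ else 0), mul_sum, mul_sum]
    refine sum_congr rfl (fun τ _ => ?_)
    have h0 : (H61W.Phi b e τ 0) 0 = τ (Fin.last b) (Fin.last e) := by
      rw [H61W.Phi_zero, Equiv.Perm.mul_apply, H61W.rot_inv_zero]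
    have hadj := H61W.Adj_rot al hper j τ
    by_cases hc : Adj (fun i => al (i + j)) τ ∧ τ (Fin.last b) (Fin.last e) = a
    · rw [if_pos hc, if_pos ⟨hadj.mpr hc.1, by rw [h0]; exact hc.2⟩, ← pow_add, ← pow_add]
      congr 1
      have := H61W.TT_rot al hper hle j τ
      rw [hc.2] at this
      omega
    · rw [if_neg hc, if_neg (by rw [hadj, h0]; exact hc), mul_zero, mul_zero]
  rw [hA (j + b) a] at key
  have hne : q ^ (2 * (a : ℕ) + predc (al (j + b + b)) a) ≠ 0 := pow_ne_zero _ hq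
  apply mul_left_cancel₀ hne
  rw [key, ← mul_assoc, ← mul_assoc, ← pow_add, ← pow_add]
  congr 2
  omega

theorem window_sum {K : Type*} [Field K] (q : K) (hq : q ≠ 0) {b e : ℕ}
    (al : ℕ → Fin (e + 1) → ℕ) (hmono : ∀ i, Monotone (al i))
    (hper : ∀ i, al (i + (b + 1)) = al i) (hle : ∀ i a, al i a ≤ e + 1) (A : K)
    (hA : ∀ (j : ℕ) (r : Fin (e + 1)),
      PP (b := b) q (fun i => al (i + j)) r = q ^ ((r : ℕ) + predc (al (j + b)) r) * A)
    (j i o : ℕ) (hi : i ≤ e + 1) (ho : o ≤ e + 1)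
    (h1 : ∀ a : Fin (e + 1), (a : ℕ) < o → al (j + b) a ≤ i)
    (h2 : ∀ a : Fin (e + 1), o ≤ (a : ℕ) → i ≤ al (j + b) a) :
    (q - 1) *
    ((∑ τ : Fin (b + 1) → Equiv.Perm (Fin (e + 1)),
      if Adj (fun i => al (i + j)) τ ∧ ((τ 0 0 : Fin (e + 1)) : ℕ) < i
        then q ^ TT (fun i => al (i + j)) τ else 0) -
     (∑ τ : Fin (b + 1) → Equiv.Perm (Fin (e + 1)),
      if Adj (fun i => al (i + j)) τ ∧ ((τ (Fin.last b) (Fin.last e) : Fin (e + 1)) : ℕ) < o
        then q ^ TT (fun i => al (i + j)) τ else 0)) =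
      (q ^ (e + 1 + i - o) - q ^ (e + 1)) * A := by
  have split : ∀ (g : (Fin (b + 1) → Equiv.Perm (Fin (e + 1))) → Fin (e + 1)) (k : ℕ),
      (∑ τ : Fin (b + 1) → Equiv.Perm (Fin (e + 1)),
        if Adj (fun i => al (i + j)) τ ∧ ((g τ : Fin (e + 1)) : ℕ) < k
          then q ^ TT (fun i => al (i + j)) τ else 0) =
      ∑ r : Fin (e + 1), if (r : ℕ) < k then
        (∑ τ : Fin (b + 1) → Equiv.Perm (Fin (e + 1)),
          if Adj (fun i => al (i + j)) τ ∧ g τ = r
            then q ^ TT (fun i => al (i + j)) τ else 0) else 0 := by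
    intro g k
    have : ∀ r : Fin (e + 1), (if (r : ℕ) < k then
        (∑ τ : Fin (b + 1) → Equiv.Perm (Fin (e + 1)),
          if Adj (fun i => al (i + j)) τ ∧ g τ = r
            then q ^ TT (fun i => al (i + j)) τ else 0) else 0) =
        ∑ τ : Fin (b + 1) → Equiv.Perm (Fin (e + 1)),
          if g τ = r then (if Adj (fun i => al (i + j)) τ ∧ ((g τ : Fin (e + 1)) : ℕ) < k
          then q ^ TT (fun i => al (i + j)) τ else 0) else 0 := by
      intro r
      by_cases hr : (r : ℕ) < k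
      · rw [if_pos hr]
        refine sum_congr rfl (fun τ _ => ?_)
        by_cases hg : g τ = r
        · simp only [hg, hr, and_true, if_true]
        · simp only [hg, and_false, if_false]
      · rw [if_neg hr]
        symm
        refine sum_eq_zero (fun τ _ => ?_)
        by_cases hg : g τ = r
        · simp only [hg, hr, and_false, if_false, if_true]
        · simp only [hg, if_false]
    rw [sum_congr rfl (fun r _ => this r), sum_comm]
    refine sum_congr rfl (fun τ _ => ?_)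
    rw [sum_ite_eq]
    simp
  rw [split (fun τ => τ 0 0) i, split (fun τ => τ (Fin.last b) (Fin.last e)) o]
  have s1 : ∀ r : Fin (e + 1), (if (r : ℕ) < i then
        (∑ τ : Fin (b + 1) → Equiv.Perm (Fin (e + 1)),
          if Adj (fun i => al (i + j)) τ ∧ τ 0 0 = r
            then q ^ TT (fun i => al (i + j)) τ else 0) else 0) =
      (if (r : ℕ) < i then q ^ ((r : ℕ) + predc (al (j + b)) r) else 0) * A := by
    intro r
    by_cases hr : (r : ℕ) < i
    · rw [if_pos hr, if_pos hr]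
      exact hA j r
    · rw [if_neg hr, if_neg hr, zero_mul]
  have s2 : ∀ r : Fin (e + 1), (if (r : ℕ) < o then
        (∑ τ : Fin (b + 1) → Equiv.Perm (Fin (e + 1)),
          if Adj (fun i => al (i + j)) τ ∧ τ (Fin.last b) (Fin.last e) = r
            then q ^ TT (fun i => al (i + j)) τ else 0) else 0) =
      (if (r : ℕ) < o then q ^ (e - (r : ℕ) + al (j + b) r) else 0) * A := by
    intro r
    by_cases hr : (r : ℕ) < o
    · rw [if_pos hr, if_pos hr]
      exact last_sum q hq al hmono hper hle A hA j r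
    · rw [if_neg hr, if_neg hr, zero_mul]
  rw [sum_congr rfl (fun r _ => s1 r), sum_congr rfl (fun r _ => s2 r), ← sum_mul, ← sum_mul,
    ← sub_mul, ← mul_assoc, tele q (al (j + b)) (hmono _) (hle _) i o hi ho h1 h2]

end Pool.Agent.Lib.MP_0e7911_co_h50
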