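import Pool.Agent.Lib.MP_0e7911_co_h50.Basic

/-!
# M4: tables as matrix products
-/

set_option autoImplicit false

namespace Pool.Agent.Lib.MP_0e7911_co_h61

open Finset Pool.Agent.Lib.MP_0e7911_co_h50

/-- products of transfer matrices -/
def prodM {K P : Type*} [CommRing K] [Fintype P] [DecidableEq P] (w : ℕ → Matrix P P K) :
    ℕ → Matrix P P K
  | 0 => 1
  | k + 1 => w k * prodM w k

/-- sums over paths as matrix entries -/
theorem path_sum {K P : Type*} [CommRing K] [Fintype P] [DecidableEq P] (w : ℕ → Matrix P P K)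
    (b : ℕ) : ∀ g : P → P → K,
    ∑ f : Fin (b + 1) → P, g (f 0) (f (Fin.last b)) * ∏ i : Fin b, w i (f i.succ) (f i.castSucc) =
      ∑ c, ∑ c', g c c' * prodM w b c' c := by
  induction b with
  | zero =>
    intro g
    have h1 : ∑ f : Fin (0 + 1) → P, g (f 0) (f (Fin.last 0)) *
        ∏ i : Fin 0, w i (f i.succ) (f i.castSucc) = ∑ c : P, g c c := by
      refine Fintype.sum_equiv (Equiv.funUnique (Fin 1) P) _ _ (fun f => ?_)
      simp
    rw [h1]
    refine Finset.sum_congr rfl fun c _ => ?_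
    simp [prodM, Matrix.one_apply]
  | succ b ih =>
    intro g
    have h1 : ∑ f : Fin (b + 1 + 1) → P, g (f 0) (f (Fin.last (b + 1))) *
        ∏ i : Fin (b + 1), w i (f i.succ) (f i.castSucc) =
        ∑ x : P, ∑ f : Fin (b + 1) → P, g (f 0) x * (w b x (f (Fin.last b)) *
          ∏ i : Fin b, w i (f i.succ) (f i.castSucc)) := by
      rw [← Fintype.sum_prod_type']
      refine (Fintype.sum_equiv (Fin.snocEquiv fun _ : Fin (b + 1 + 1) => P) _ _ ?_).symm
      rintro ⟨x, f⟩
      simp only [Fin.snocEquiv_apply]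
      have e0 : (Fin.snoc (α := fun _ => P) f x : Fin (b + 1 + 1) → P) 0 = f 0 := by
        have : (0 : Fin (b + 1 + 1)) = Fin.castSucc 0 := rfl
        rw [this, Fin.snoc_castSucc]
      rw [e0, Fin.snoc_last, Fin.prod_univ_castSucc]
      congr 1
      rw [mul_comm]
      congr 1
      · refine Finset.prod_congr rfl fun i _ => ?_
        have e2 : (Fin.succ (Fin.castSucc i) : Fin (b + 1 + 1)) = Fin.castSucc (Fin.succ i) := rfl
        rw [e2, Fin.snoc_castSucc, Fin.snoc_castSucc]
        rfl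
      · have e1 : (Fin.succ (Fin.last b) : Fin (b + 1 + 1)) = Fin.last (b + 1) := rfl
        rw [e1, Fin.snoc_last, Fin.snoc_castSucc, Fin.val_last]
    rw [h1, Finset.sum_comm]
    have h2 : ∀ f : Fin (b + 1) → P, ∑ x : P, g (f 0) x * (w b x (f (Fin.last b)) *
          ∏ i : Fin b, w i (f i.succ) (f i.castSucc)) =
        (∑ x : P, g (f 0) x * w b x (f (Fin.last b))) *
          ∏ i : Fin b, w i (f i.succ) (f i.castSucc) := by
      intro f
      rw [Finset.sum_mul]
      exact Finset.sum_congr rfl fun x _ => by ring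
    rw [Finset.sum_congr rfl fun f _ => h2 f, ih (fun c c'' => ∑ x : P, g c x * w b x c'')]
    refine Finset.sum_congr rfl fun c _ => ?_
    simp only [prodM, Matrix.mul_apply, Finset.sum_mul, Finset.mul_sum]
    rw [Finset.sum_comm]
    refine Finset.sum_congr rfl fun x _ => Finset.sum_congr rfl fun c'' _ => by ring

variable {e : ℕ}

/-- the exponent of a board matrix in terms of rank functions -/
def Eexp (al : Fin (e + 1) → ℕ) (a a' : Equiv.Perm (Fin (e + 1))) : ℕ :=
  (univ.filter (fun st : Fin (e + 1) × Fin (e + 1) =>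
    st.1 < st.2 ∧ a st.2 < a st.1 ∧ (a' st.1 : ℕ) < al (a st.2))).card

theorem Bmat_inv {K : Type*} [CommRing K] (q : K) (al : Fin (e + 1) → ℕ)
    (a a' : Equiv.Perm (Fin (e + 1))) :
    Bmat q al a'⁻¹ a⁻¹ = if ∀ t, (a' t : ℕ) < al (a t) then q ^ Eexp al a a' else 0 := by
  unfold Bmat
  have h1 : (∀ p : Fin (e + 1), (((a'⁻¹)⁻¹ (a⁻¹ p) : Fin (e + 1)) : ℕ) < al p) ↔
      ∀ t, (a' t : ℕ) < al (a t) := by
    constructor
    · intro h t
      have := h (a t)
      simpa using this
    · intro h p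
      have := h (a⁻¹ p)
      simpa using this
  have h2 : (univ.filter (fun pp : Fin (e + 1) × Fin (e + 1) =>
        pp.1 < pp.2 ∧ a⁻¹ pp.2 < a⁻¹ pp.1 ∧
          (((a'⁻¹)⁻¹ (a⁻¹ pp.2) : Fin (e + 1)) : ℕ) < al pp.1)).card = Eexp al a a' := by
    unfold Eexp
    refine Finset.card_nbij' (fun pp => (a⁻¹ pp.2, a⁻¹ pp.1)) (fun st => (a st.2, a st.1))
      ?_ ?_ ?_ ?_
    · rintro ⟨p1, p2⟩ hp
      simp only [Finset.coe_filter, Finset.mem_univ, true_and, Set.mem_ofPred_eq, inv_inv] at hp ⊢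
      obtain ⟨h1, h2, h3⟩ := hp
      refine ⟨h2, ?_, ?_⟩
      · simpa using h1
      · simpa using h3
    · rintro ⟨s, t⟩ hp
      simp only [Finset.coe_filter, Finset.mem_univ, true_and, Set.mem_ofPred_eq, inv_inv] at hp ⊢
      obtain ⟨h1, h2, h3⟩ := hp
      refine ⟨h2, ?_, ?_⟩
      · simpa using h1
      · simpa using h3
    · rintro ⟨p1, p2⟩ _
      simp
    · rintro ⟨s, t⟩ _
      simp
  rw [h2]
  by_cases h : ∀ t, (a' t : ℕ) < al (a t)
  · rw [if_pos (h1.mpr h), if_pos h]
  · rw [if_neg (fun h' => h (h1.mp h')), if_neg h]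

/-- number of pairs `s < t` -/
def Npair (e : ℕ) : ℕ :=
  (univ.filter (fun st : Fin (e + 1) × Fin (e + 1) => st.1 < st.2)).card

theorem pair_count (al : Fin (e + 1) → ℕ) (hal : Monotone al)
    (a a' : Equiv.Perm (Fin (e + 1))) (h : ∀ t, (a' t : ℕ) < al (a t)) :
    inv a + (univ.filter (fun st : Fin (e + 1) × Fin (e + 1) =>
      st.1 < st.2 ∧ (a' st.1 : ℕ) < al (a st.2))).card = Npair e + Eexp al a a' := by
  unfold inv Npair Eexp
  simp only [Finset.card_filter]
  rw [← Finset.sum_add_distrib, ← Finset.sum_add_distrib]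
  refine Finset.sum_congr rfl ?_
  rintro ⟨s, t⟩ _
  by_cases hst : s < t
  · by_cases hinv : a t < a s
    · simp [hst, hinv]
    · have hlt : a s < a t := by
        rcases lt_trichotomy (a s) (a t) with h1 | h1 | h1
        · exact h1
        · exact absurd (a.injective h1) hst.ne
        · exact absurd h1 hinv
      have h3 : (a' s : ℕ) < al (a t) := lt_of_lt_of_le (h s) (hal hlt.le)
      simp [hst, hinv, h3]
  · simp [hst]

theorem last_count (al : Fin (e + 1) → ℕ) (a a0 : Equiv.Perm (Fin (e + 1))) :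
    (univ.filter (fun st : Fin (e + 1) × Fin (e + 1) =>
      st.1 ≤ st.2 ∧ (a0 st.1 : ℕ) < al (a st.2))).card =
    (univ.filter (fun st : Fin (e + 1) × Fin (e + 1) =>
      st.1 < st.2 ∧ ((a0 * finRotate (e + 1)) st.1 : ℕ) < al (a st.2))).card +
      predc al (a0 0) := by
  have h1 : (univ.filter (fun st : Fin (e + 1) × Fin (e + 1) =>
      st.1 ≤ st.2 ∧ (a0 st.1 : ℕ) < al (a st.2))).card =
      (∑ t : Fin (e + 1), if (a0 0 : ℕ) < al (a t) then 1 else 0) +
      ∑ s : Fin e, ∑ t : Fin (e + 1), if s.succ ≤ t ∧ (a0 s.succ : ℕ) < al (a t) then 1 else 0 := by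
    rw [Finset.card_filter, Fintype.sum_prod_type, Fin.sum_univ_succ]
    simp
  have h2 : (univ.filter (fun st : Fin (e + 1) × Fin (e + 1) =>
      st.1 < st.2 ∧ ((a0 * finRotate (e + 1)) st.1 : ℕ) < al (a st.2))).card =
      ∑ s : Fin e, ∑ t : Fin (e + 1), if s.succ ≤ t ∧ (a0 s.succ : ℕ) < al (a t) then 1 else 0 := by
    rw [Finset.card_filter, Fintype.sum_prod_type, Fin.sum_univ_castSucc]
    have h3 : (∑ t : Fin (e + 1), if (Fin.last e, t).1 < (Fin.last e, t).2 ∧
        ((a0 * finRotate (e + 1)) (Fin.last e, t).1 : ℕ) < al (a (Fin.last e, t).2)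
        then 1 else 0) = 0 := by
      refine Finset.sum_eq_zero fun t _ => ?_
      rw [if_neg]
      intro h
      exact absurd h.1 (not_lt.mpr (Fin.le_last t))
    rw [h3, add_zero]
    refine Finset.sum_congr rfl fun s _ => Finset.sum_congr rfl fun t _ => ?_
    have h4 : (a0 * finRotate (e + 1)) s.castSucc = a0 s.succ := by
      rw [Equiv.Perm.mul_apply, finRotate_succ_apply, Fin.coeSucc_eq_succ]
    simp only [h4, Fin.castSucc_lt_iff_succ_le]
  have h5 : predc al (a0 0) = ∑ t : Fin (e + 1), if (a0 0 : ℕ) < al (a t) then 1 else 0 := by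
    unfold predc
    rw [Finset.card_filter]
    exact (Fintype.sum_equiv a _ _ (fun t => rfl)).symm
  rw [h1, h2, h5, add_comm]

theorem PP_eq {K : Type*} [CommRing K] (q : K) {b : ℕ} (al : ℕ → Fin (e + 1) → ℕ)
    (hmono : ∀ i, Monotone (al i)) (r : Fin (e + 1)) :
    PP (b := b) q al r = q ^ ((b + 1) * Npair e + predc (al b) r) *
      Lam r (prodM (fun k => Bmat q (al k)) (b + 1)) := by
  unfold PP
  let g : Equiv.Perm (Fin (e + 1)) → Equiv.Perm (Fin (e + 1)) → K := fun c c' =>
    q ^ ((b + 1) * Npair e + predc (al b) r) *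
      (if (c r : ℕ) = 0 then Bmat q (al b) ((finRotate (e + 1))⁻¹ * c) c' else 0)
  have key : ∀ τ : Fin (b + 1) → Equiv.Perm (Fin (e + 1)),
      (if Adj al τ ∧ τ 0 0 = r then q ^ TT al τ else 0) =
      g (τ 0)⁻¹ (τ (Fin.last b))⁻¹ *
        ∏ i : Fin b, Bmat q (al i) (τ i.succ)⁻¹ (τ i.castSucc)⁻¹ := by
    intro τ
    have hg : g (τ 0)⁻¹ (τ (Fin.last b))⁻¹ = q ^ ((b + 1) * Npair e + predc (al b) r) *
        (if τ 0 0 = r then (if ∀ t, ((τ 0 * finRotate (e + 1)) t : ℕ) <
          al b (τ (Fin.last b) t) then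
            q ^ Eexp (al b) (τ (Fin.last b)) (τ 0 * finRotate (e + 1)) else 0) else 0) := by
      simp only [g]
      congr 1
      have h1 : ((((τ 0)⁻¹ r : Fin (e + 1)) : ℕ) = 0) ↔ τ 0 0 = r := by
        rw [Fin.val_eq_zero_iff, Equiv.Perm.inv_eq_iff_eq]
        exact eq_comm
      have h2 : (finRotate (e + 1))⁻¹ * (τ 0)⁻¹ = (τ 0 * finRotate (e + 1))⁻¹ := by
        rw [mul_inv_rev]
      rw [h2, Bmat_inv]
      by_cases h : τ 0 0 = r
      · rw [if_pos (h1.mpr h), if_pos h]
      · rw [if_neg (fun h' => h (h1.mp h')), if_neg h]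
    have hprod : ∏ i : Fin b, Bmat q (al i) (τ i.succ)⁻¹ (τ i.castSucc)⁻¹ =
        if ∀ i : Fin b, ∀ t, (τ i.succ t : ℕ) < al i (τ i.castSucc t) then
          q ^ (∑ i : Fin b, Eexp (al i) (τ i.castSucc) (τ i.succ)) else 0 := by
      simp only [Bmat_inv]
      rw [Finset.prod_ite_zero]
      simp only [Finset.mem_univ, forall_const, Finset.prod_pow_eq_pow_sum]
    have hrot : (∀ t, ((τ 0 * finRotate (e + 1)) t : ℕ) < al b (τ (Fin.last b) t)) ↔
        ∀ t : Fin (e + 1), (τ 0 (t + 1) : ℕ) < al b (τ (Fin.last b) t) := by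
      simp only [Equiv.Perm.mul_apply, finRotate_succ_apply]
    rw [hg, hprod]
    by_cases hA : Adj al τ
    · obtain ⟨hA1, hA2⟩ := hA
      rw [if_pos hA1, if_pos (hrot.mpr hA2)]
      by_cases h0 : τ 0 0 = r
      · rw [if_pos ⟨⟨hA1, hA2⟩, h0⟩, if_pos h0, ← pow_add, ← pow_add]
        congr 1
        have hT : TT al τ = (∑ i : Fin b, (inv (τ i.castSucc) +
            (univ.filter (fun st : Fin (e + 1) × Fin (e + 1) =>
              st.1 < st.2 ∧ (τ i.succ st.1 : ℕ) < al i (τ i.castSucc st.2))).card)) +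
            (inv (τ (Fin.last b)) +
              (univ.filter (fun st : Fin (e + 1) × Fin (e + 1) =>
                st.1 < st.2 ∧ ((τ 0 * finRotate (e + 1)) st.1 : ℕ) <
                  al b (τ (Fin.last b) st.2))).card) + predc (al b) (τ 0 0) := by
          unfold TT
          rw [last_count (al b) (τ (Fin.last b)) (τ 0), Fin.sum_univ_castSucc,
            Finset.sum_add_distrib]
          ring
        rw [hT, Finset.sum_congr rfl fun (i : Fin b) _ => pair_count (al i) (hmono i)
          (τ i.castSucc) (τ i.succ) (hA1 i), pair_count (al b) (hmono b) (τ (Fin.last b))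
          (τ 0 * finRotate (e + 1)) (hrot.mpr hA2), Finset.sum_add_distrib, h0]
        simp only [Finset.sum_const, Finset.card_univ, Fintype.card_fin, smul_eq_mul]
        ring
      · rw [if_neg (fun h => h0 h.2), if_neg h0]
        simp
    · rw [if_neg (fun h => hA h.1)]
      by_cases hA1 : ∀ i : Fin b, ∀ t, (τ i.succ t : ℕ) < al i (τ i.castSucc t)
      · have hA2 : ¬ ∀ t, ((τ 0 * finRotate (e + 1)) t : ℕ) < al b (τ (Fin.last b) t) :=
          fun h => hA ⟨hA1, hrot.mp h⟩
        rw [if_neg hA2]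
        simp
      · rw [if_neg hA1, mul_zero]
  rw [Finset.sum_congr rfl fun τ _ => key τ]
  have hre : ∑ τ : Fin (b + 1) → Equiv.Perm (Fin (e + 1)), g (τ 0)⁻¹ (τ (Fin.last b))⁻¹ *
        ∏ i : Fin b, Bmat q (al i) (τ i.succ)⁻¹ (τ i.castSucc)⁻¹ =
      ∑ f : Fin (b + 1) → Equiv.Perm (Fin (e + 1)), g (f 0) (f (Fin.last b)) *
        ∏ i : Fin b, Bmat q (al i) (f i.succ) (f i.castSucc) :=
    Fintype.sum_equiv (Equiv.piCongrRight fun _ => Equiv.inv (Equiv.Perm (Fin (e + 1)))) _ _
      (fun τ => rfl)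
  rw [hre, path_sum (fun k => Bmat q (al k)) b g]
  simp only [g, Lam, prodM, Matrix.mul_apply, Finset.mul_sum]
  refine Finset.sum_congr rfl fun c _ => ?_
  by_cases h : (c r : ℕ) = 0
  · simp only [if_pos h, Finset.mul_sum]
    exact Finset.sum_congr rfl fun c' _ => by ring
  · simp [h]

/-- products of boards commute with the colour operators -/
theorem prodM_comm {K : Type*} [CommRing K] (q : K) {d : ℕ}
    (w : ℕ → Matrix (Equiv.Perm (Fin d)) (Equiv.Perm (Fin d)) K) (hw : ∀ k, Comm q (w k))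
    (k : ℕ) : Comm q (prodM w k) := by
  induction k with
  | zero => intro i h; simp [prodM]
  | succ k ih =>
    intro i h
    show w k * prodM w k * Rop q d i h = Rop q d i h * (w k * prodM w k)
    rw [Matrix.mul_assoc, ih i h, ← Matrix.mul_assoc, hw k i h, Matrix.mul_assoc]

theorem prodM_shift {K P : Type*} [CommRing K] [Fintype P] [DecidableEq P]
    (w : ℕ → Matrix P P K) (k : ℕ) :
    prodM (fun i => w (i + 1)) k * w 0 = prodM w (k + 1) := by
  induction k with
  | zero => simp [prodM]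
  | succ k ih =>
    show w (k + 1) * prodM (fun i => w (i + 1)) k * w 0 = w (k + 1) * prodM w (k + 1)
    rw [Matrix.mul_assoc, ih]

/-- M4, from the trace properties and the commutation of board matrices -/
theorem core_of {K : Type*} [Field K] (q : K) {b e : ℕ}
    (hshift : ∀ X : Matrix (Equiv.Perm (Fin (e + 1))) (Equiv.Perm (Fin (e + 1))) K,
      Comm q X → ∀ r : Fin (e + 1), Lam r X = q ^ (r : ℕ) * Lam 0 X)
    (hcyc : ∀ X Y : Matrix (Equiv.Perm (Fin (e + 1))) (Equiv.Perm (Fin (e + 1))) K,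
      Comm q X → Comm q Y → Lam 0 (X * Y) = Lam 0 (Y * X))
    (hB : ∀ al : Fin (e + 1) → ℕ, Monotone al → Comm q (Bmat q al))
    (al : ℕ → Fin (e + 1) → ℕ) (hmono : ∀ i, Monotone (al i))
    (hper : ∀ i, al (i + (b + 1)) = al i) :
    ∃ A : K, ∀ (j : ℕ) (r : Fin (e + 1)),
      PP (b := b) q (fun i => al (i + j)) r = q ^ ((r : ℕ) + predc (al (j + b)) r) * A := by
  have hC : ∀ j k, Comm q (prodM (fun i => Bmat q (al (i + j))) k) := fun j k =>
    prodM_comm q _ (fun i => hB _ (hmono _)) k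
  have hrot : ∀ j, Lam 0 (prodM (fun i => Bmat q (al (i + j))) (b + 1)) =
      Lam 0 (prodM (fun i => Bmat q (al (i + 0))) (b + 1)) := by
    intro j
    induction j with
    | zero => rfl
    | succ j ih =>
      rw [← ih]
      have h1 : prodM (fun i => Bmat q (al (i + j))) (b + 1) =
          prodM (fun i => Bmat q (al (i + (j + 1)))) b * Bmat q (al j) := by
        rw [← prodM_shift (fun i => Bmat q (al (i + j))) b]
        simp only [Nat.zero_add]
        congr 2
        funext i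
        rw [Nat.add_assoc, Nat.add_comm 1 j]
      have h2 : prodM (fun i => Bmat q (al (i + (j + 1)))) (b + 1) =
          Bmat q (al j) * prodM (fun i => Bmat q (al (i + (j + 1)))) b := by
        show Bmat q (al (b + (j + 1))) * _ = _
        congr 2
        rw [← hper j]
        congr 1
        omega
      rw [h1, h2]
      exact hcyc _ _ (hB _ (hmono _)) (hC _ _)
  refine ⟨q ^ ((b + 1) * Npair e) * Lam 0 (prodM (fun i => Bmat q (al (i + 0))) (b + 1)),
    fun j r => ?_⟩
  rw [PP_eq q (fun i => al (i + j)) (fun i => hmono _) r, hshift _ (hC j (b + 1)) r, hrot j]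
  have : predc (al (b + j)) r = predc (al (j + b)) r := by rw [Nat.add_comm]
  rw [this]
  ring

end Pool.Agent.Lib.MP_0e7911_co_h61
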