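import Pool.Agent.Lib.MP_0e7911_co_h61.GapNum

/-!
# The exchange identity: algebraic part
-/

set_option autoImplicit false

namespace Pool.Agent.Lib.MP_0e7911_co_h61G

open Finset

variable {K A : Type*} [Field K] [Ring A] [Algebra K A]

/-- the word `R a * R (a+1) * ... * R (a+n-1)` -/
def PR (R : ℕ → A) (a : ℕ) : ℕ → A
  | 0 => 1
  | n + 1 => PR R a n * R (a + n)

theorem PR_zero (R : ℕ → A) (a : ℕ) : PR R a 0 = 1 := rfl

theorem PR_succ (R : ℕ → A) (a n : ℕ) : PR R a (n + 1) = PR R a n * R (a + n) := rfl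

theorem PR_left (R : ℕ → A) (a n : ℕ) : R a * PR R (a + 1) n = PR R a (n + 1) := by
  induction n with
  | zero => rw [PR_zero, PR_succ, PR_zero, add_zero, one_mul, mul_one]
  | succ n ih =>
    rw [PR_succ R (a + 1) n, ← mul_assoc, ih, PR_succ R a (n + 1)]
    congr 2
    ring

theorem PR_far (R : ℕ → A) (N : ℕ)
    (hfar : ∀ i j, i < N → j < N → i + 2 ≤ j → R i * R j = R j * R i)
    {a j : ℕ} (n : ℕ) (hj : a + n + 1 ≤ j) (hjN : j < N) : R j * PR R a n = PR R a n * R j := by
  induction n with
  | zero => rw [PR_zero, one_mul, mul_one]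
  | succ n ih =>
    rw [PR_succ, ← mul_assoc, ih (by omega), mul_assoc, mul_assoc,
      hfar (a + n) j (by omega) hjN (by omega)]

theorem PR_slide (R : ℕ → A) (N : ℕ)
    (hbr : ∀ i, i + 1 < N → R i * R (i + 1) * R i = R (i + 1) * R i * R (i + 1))
    (hfar : ∀ i j, i < N → j < N → i + 2 ≤ j → R i * R j = R j * R i)
    {a j : ℕ} (n : ℕ) (h1 : a ≤ j) (h2 : j + 1 < a + n) (hN : a + n ≤ N) :
    R (j + 1) * PR R a n = PR R a n * R j := by
  induction n with
  | zero => omega
  | succ n ih =>
    rcases Nat.lt_or_ge (j + 1) (a + n) with h | h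
    · rw [PR_succ, ← mul_assoc, ih h (by omega), mul_assoc, mul_assoc,
        hfar j (a + n) (by omega) (by omega) (by omega)]
    · have hj : j + 1 = a + n := by omega
      obtain ⟨n', rfl⟩ : ∃ n', n = n' + 1 := ⟨n - 1, by omega⟩
      have hj' : a + n' = j := by omega
      have hj'' : a + (n' + 1) = j + 1 := by omega
      rw [PR_succ, PR_succ, hj', hj'']
      have hf : R (j + 1) * PR R a n' = PR R a n' * R (j + 1) :=
        PR_far R N hfar n' (by omega) (by omega)
      calc R (j + 1) * (PR R a n' * R j * R (j + 1))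
          = (R (j + 1) * PR R a n') * R j * R (j + 1) := by simp only [mul_assoc]
        _ = PR R a n' * (R (j + 1) * R j * R (j + 1)) := by rw [hf]; simp only [mul_assoc]
        _ = PR R a n' * (R j * R (j + 1) * R j) := by rw [hbr j (by omega)]
        _ = _ := by simp only [mul_assoc]

section window

variable (q : K) (R : ℕ → A) (N : ℕ) (tr : A →ₗ[K] K) (D : ℕ → A) (G : A) (lo hi : ℕ)

theorem nu_eq (hhi : hi ≤ N + 1)
    (hbr : ∀ i, i + 1 < N → R i * R (i + 1) * R i = R (i + 1) * R i * R (i + 1))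
    (hfar : ∀ i j, i < N → j < N → i + 2 ≤ j → R i * R j = R j * R i)
    (htr : ∀ x y, tr (x * y) = tr (y * x))
    (hG : ∀ j, j + 1 < N → G * R j = R (j + 1) * G)
    (hD2 : ∀ a j, lo < a → a < j → j + 1 < hi → R j * D a = D a * R j)
    (a n : ℕ) (ha : lo ≤ a) (hn : a + 1 + n < hi) (m : ℕ) (hm : 2 * m ≤ n) :
    tr (R (a + 2 * m) * (D (a + 1) * PR R (a + 1) n * G)) =
      tr (R a * (D (a + 1) * PR R (a + 1) n * G)) := by
  induction m with
  | zero => simp
  | succ m ih =>
    rw [← ih (by omega)]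
    have e1 : a + 2 * (m + 1) = (a + 2 * m + 1) + 1 := by ring
    rw [e1]
    have h1 := hD2 (a + 1) (a + 2 * m + 1 + 1) (by omega) (by omega) (by omega)
    have h2 := PR_slide R N hbr hfar (a := a + 1) (j := a + 2 * m + 1) n (by omega) (by omega)
      (by omega)
    have h3 := hG (a + 2 * m) (by omega)
    calc tr (R (a + 2 * m + 1 + 1) * (D (a + 1) * PR R (a + 1) n * G))
        = tr ((R (a + 2 * m + 1 + 1) * D (a + 1)) * PR R (a + 1) n * G) := by
          simp only [mul_assoc]
      _ = tr (D (a + 1) * (R (a + 2 * m + 1 + 1) * PR R (a + 1) n) * G) := by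
          rw [h1]; simp only [mul_assoc]
      _ = tr (D (a + 1) * PR R (a + 1) n * (R (a + 2 * m + 1) * G)) := by
          rw [h2]; simp only [mul_assoc]
      _ = tr ((D (a + 1) * PR R (a + 1) n * G) * R (a + 2 * m)) := by
          rw [← h3]; simp only [mul_assoc]
      _ = _ := htr _ _

theorem window (hq : q ≠ 0) (hhi : hi ≤ N + 1)
    (hsq : ∀ i, i < N → R i * R i = (q - 1) • R i + q • 1)
    (hbr : ∀ i, i + 1 < N → R i * R (i + 1) * R i = R (i + 1) * R i * R (i + 1))
    (hfar : ∀ i j, i < N → j < N → i + 2 ≤ j → R i * R j = R j * R i)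
    (htr : ∀ x y, tr (x * y) = tr (y * x))
    (hG : ∀ j, j + 1 < N → G * R j = R (j + 1) * G)
    (hD1 : ∀ a, lo < a → a + 1 < hi → R a * D (a + 1) = (q - 1) • D (a + 1) + D a * R a)
    (hD2 : ∀ a j, lo < a → a < j → j + 1 < hi → R j * D a = D a * R j)
    (hL : ∀ n, lo + 1 + n < hi → R lo * (D (lo + 1) * PR R (lo + 1) n * G) =
      q • (D (lo + 1) * PR R (lo + 1) n * G))
    (hRt : ∀ a n, lo < a → a + 1 + n + 1 = hi →
      tr (R (a + n) * (D (a + 1) * PR R (a + 1) n * G)) = q * tr (D (a + 1) * PR R (a + 1) n * G)) :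
    ∑ c ∈ Ico 1 (hi - lo), (q ^ c * qn q (hi - lo - c) - q * qn q c) * tr (D (lo + c) * G) = 0 := by
  have nu := nu_eq R N tr D G lo hi hhi hbr hfar htr hG hD2
  -- the left value
  have left : ∀ a n, lo < a → a + 1 + n < hi →
      tr (R a * (D (a + 1) * PR R (a + 1) n * G)) =
        (q - 1) * tr (D (a + 1) * PR R (a + 1) n * G) + tr (D a * PR R a (n + 1) * G) := by
    intro a n ha hn
    have h1 := hD1 a ha (by omega)
    calc tr (R a * (D (a + 1) * PR R (a + 1) n * G))
        = tr ((R a * D (a + 1)) * PR R (a + 1) n * G) := by simp only [mul_assoc]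
      _ = tr ((q - 1) • (D (a + 1) * PR R (a + 1) n * G) +
            D a * (R a * PR R (a + 1) n) * G) := by
          rw [h1]; simp only [add_mul, smul_mul_assoc, mul_assoc]
      _ = _ := by rw [PR_left, map_add, map_smul, smul_eq_mul]
  -- the right value
  have right : ∀ a n, a + 1 + n < N →
      tr (R (a + n) * (D (a + 1) * PR R (a + 1) n * G)) =
        tr (D (a + 1) * PR R (a + 1) (n + 1) * G) := by
    intro a n hn
    have h3 := hG (a + n) (by omega)
    rw [htr]
    calc tr (D (a + 1) * PR R (a + 1) n * G * R (a + n))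
        = tr (D (a + 1) * PR R (a + 1) n * (G * R (a + n))) := by simp only [mul_assoc]
      _ = tr (D (a + 1) * (PR R (a + 1) n * R (a + n + 1)) * G) := by
          rw [h3]; simp only [mul_assoc]
      _ = _ := by rw [PR_succ]; congr 5; ring
  have key := W_rel q hq (hi - lo) (fun x y => tr (D (lo + x) * PR R (lo + x) (y - x) * G))
    ?_ ?_ ?_ ?_
  · have := exch_sum q (hi - lo) (fun c => tr (D (lo + c) * G)) (by
      intro j hj
      have := key j hj
      simpa [PR_zero] using this)
    exact this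
  · -- odd
    intro a m ha hs
    have e1 : a + 1 + 2 * m + 1 - a = 2 * m + 1 + 1 := by omega
    have e2 : a + 1 + 2 * m - (a + 1) = 2 * m := by omega
    simp only [e1, e2]
    have h1 := nu (lo + a) (2 * m + 1) (by omega) (by omega) m (by omega)
    have h2 := left (lo + a) (2 * m + 1) (by omega) (by omega)
    rw [h2] at h1
    have h3 := hG (lo + a + 2 * m) (by omega)
    have h4 := hsq (lo + a + 2 * m + 1) (by omega)
    rw [htr] at h1
    have h5 : D (lo + a + 1) * PR R (lo + a + 1) (2 * m + 1) * G * R (lo + a + 2 * m) =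
        (q - 1) • (D (lo + a + 1) * PR R (lo + a + 1) (2 * m + 1) * G) +
          q • (D (lo + a + 1) * PR R (lo + a + 1) (2 * m) * G) := by
      have e3 : lo + a + 1 + 2 * m = lo + a + 2 * m + 1 := by ring
      calc D (lo + a + 1) * PR R (lo + a + 1) (2 * m + 1) * G * R (lo + a + 2 * m)
          = D (lo + a + 1) * PR R (lo + a + 1) (2 * m + 1) * (G * R (lo + a + 2 * m)) := by
            simp only [mul_assoc]
        _ = D (lo + a + 1) * PR R (lo + a + 1) (2 * m) *
              (R (lo + a + 2 * m + 1) * R (lo + a + 2 * m + 1)) * G := by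
            rw [h3, PR_succ, e3]; simp only [mul_assoc]
        _ = _ := by
            rw [h4, PR_succ, e3]
            simp only [mul_add, add_mul, mul_smul_comm, smul_mul_assoc, mul_one, mul_assoc]
    rw [h5, map_add, map_smul, map_smul, smul_eq_mul, smul_eq_mul] at h1
    rw [← add_assoc lo a 1]
    linear_combination -h1
  · -- ev1
    intro m hs
    have e1 : 1 + 2 * m + 1 - 1 = 2 * m + 1 := by omega
    have e2 : 1 + 2 * m - 1 = 2 * m := by omega
    simp only [e1, e2]
    have h1 := nu lo (2 * m) le_rfl (by omega) m (by omega)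
    rw [right lo (2 * m) (by omega), hL (2 * m) (by omega), map_smul, smul_eq_mul] at h1
    exact h1
  · -- ev2
    intro a m ha hs
    have e1 : a + 1 + 2 * m + 1 - (a + 1) = 2 * m + 1 := by omega
    have e2 : a + 1 + 2 * m - (a + 1) = 2 * m := by omega
    have e3 : a + 1 + 2 * m - a = 2 * m + 1 := by omega
    simp only [e1, e2, e3]
    have h1 := nu (lo + a) (2 * m) (by omega) (by omega) m (by omega)
    rw [right (lo + a) (2 * m) (by omega), left (lo + a) (2 * m) (by omega) (by omega)] at h1
    rw [← add_assoc lo a 1]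
    exact h1
  · -- ev3
    intro a m ha hs
    have e2 : a + 1 + 2 * m - (a + 1) = 2 * m := by omega
    have e3 : a + 1 + 2 * m - a = 2 * m + 1 := by omega
    simp only [e2, e3]
    have h1 := nu (lo + a) (2 * m) (by omega) (by omega) m (by omega)
    rw [hRt (lo + a) (2 * m) (by omega) (by omega),
      left (lo + a) (2 * m) (by omega) (by omega)] at h1
    rw [← add_assoc lo a 1]
    linear_combination -h1

end window

end Pool.Agent.Lib.MP_0e7911_co_h61G
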