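import Pool.Agent.Lib.MP_0e7911_co_h61.Gap
import Pool.Agent.Lib.MP_0e7911_co_h56.FRMain

/-!
# The gap identity in the form used for the paths
-/

set_option autoImplicit false

namespace Pool.Agent.Lib.MP_0e7911_co_h50

open Finset

theorem gapStmt {K : Type*} [Field K] (q : K) (hq : q ≠ 0)
    (hk : ∀ k, 1 ≤ k → ∑ i ∈ range k, q ^ i ≠ 0) (e : ℕ) : FR.GapStmt q e := by
  intro X hX k hk0 hke hrow
  exact gap q hq X hX k hke (hk k hk0) hrow

end Pool.Agent.Lib.MP_0e7911_co_h50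

namespace Pool.Agent.Lib.MP_0e7911_co_rect

theorem gap_holds : Gap := by
  intro L _ q hq hk e
  exact Pool.Agent.Lib.MP_0e7911_co_h50.gapStmt q hq hk e

end Pool.Agent.Lib.MP_0e7911_co_rect
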