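import Pool.Agent.Lib.MP_0e7911_co_h61.GapAlg
import Pool.Agent.Lib.MP_0e7911_co_h50.CoreAll

/-!
# The exchange identity for matrices commuting with the colour operators
-/

set_option autoImplicit false

namespace Pool.Agent.Lib.MP_0e7911_co_h61G

open Finset Equiv Pool.Agent.Lib.MP_0e7911_co_h50

/-- square matrices indexed by colourings -/
abbrev Mt (K : Type*) (e : ℕ) := Matrix (Perm (Fin (e + 1))) (Perm (Fin (e + 1))) K

section rel

variable {K : Type*} [Field K] (q : K) (e : ℕ)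

/-- the colour operators with a total index -/
def RR (j : ℕ) : Mt K e := if h : j + 1 < e + 1 then Rop q (e + 1) j h else 0

theorem RR_eq {j : ℕ} (h : j + 1 < e + 1) : RR q e j = Rop q (e + 1) j h := dif_pos h

theorem RR_sub (j : ℕ) : RR q e j =
    (tg q e j).submatrix (Equiv.inv (Perm (Fin (e + 1)))) (Equiv.inv (Perm (Fin (e + 1)))) := by
  unfold RR tg
  split_ifs with h
  · ext c' c
    rw [Matrix.submatrix_apply, Rop_eq]
    unfold Pool.Agent.Lib.MP_0e7911_co_h50.Top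
    have e1 : (Equiv.inv (Perm (Fin (e + 1))) c' = Equiv.inv (Perm (Fin (e + 1))) c *
        sw (e + 1) j h) ↔ c' = sw (e + 1) j h * c := by
      show (c'⁻¹ = c⁻¹ * sw (e + 1) j h) ↔ _
      constructor
      · intro h1
        have := congrArg (fun x => x⁻¹) h1
        simpa [mul_inv_rev, sw_inv] using this
      · rintro rfl
        rw [mul_inv_rev, sw_inv]
    have e2 : (Equiv.inv (Perm (Fin (e + 1))) c' = Equiv.inv (Perm (Fin (e + 1))) c) ↔ c' = c :=
      (Equiv.inv _).injective.eq_iff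
    rw [if_congr e1 rfl rfl, if_congr e2 rfl rfl]
    rfl
  · ext c' c; rfl

variable {q e}

theorem RR_sq (hq : q ≠ 0) (i : ℕ) (hi : i < e) :
    RR q e i * RR q e i = (q - 1) • RR q e i + q • 1 := by
  rw [RR_sub, Matrix.submatrix_mul_equiv, tg_sq hq i hi]
  ext c' c
  simp only [Matrix.submatrix_apply, Matrix.add_apply, Matrix.smul_apply, Matrix.one_apply,
    (Equiv.inv (Perm (Fin (e + 1)))).injective.eq_iff]

theorem RR_braid (hq : q ≠ 0) (i : ℕ) (hi : i + 1 < e) :
    RR q e i * RR q e (i + 1) * RR q e i = RR q e (i + 1) * RR q e i * RR q e (i + 1) := by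
  rw [RR_sub, RR_sub, Matrix.submatrix_mul_equiv, Matrix.submatrix_mul_equiv,
    Matrix.submatrix_mul_equiv, Matrix.submatrix_mul_equiv, tg_braid hq i hi]

theorem RR_far (hq : q ≠ 0) (i j : ℕ) (hi : i < e) (hj : j < e) (hij : i + 2 ≤ j) :
    RR q e i * RR q e j = RR q e j * RR q e i := by
  rw [RR_sub, RR_sub, Matrix.submatrix_mul_equiv, Matrix.submatrix_mul_equiv, tg_far hq i j hi hj hij]

end rel

section status

variable {e : ℕ}

/-- the set of the times whose position is `< k` -/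
def St (k : ℕ) (c : Perm (Fin (e + 1))) : Finset ℕ :=
  (univ.filter (fun t : Fin (e + 1) => ((c⁻¹ t : Fin (e + 1)) : ℕ) < k)).map Fin.valEmbedding

theorem mem_St {k : ℕ} {c : Perm (Fin (e + 1))} {t : ℕ} (ht : t < e + 1) :
    t ∈ St k c ↔ ((c⁻¹ ⟨t, ht⟩ : Fin (e + 1)) : ℕ) < k := by
  unfold St
  rw [mem_map]
  constructor
  · rintro ⟨a, ha, rfl⟩
    exact (mem_filter.1 ha).2
  · intro h
    exact ⟨⟨t, ht⟩, mem_filter.2 ⟨mem_univ _, h⟩, rfl⟩

theorem St_lt {k : ℕ} {c : Perm (Fin (e + 1))} {t : ℕ} (h : t ∈ St k c) : t < e + 1 := by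
  unfold St at h
  rw [mem_map] at h
  obtain ⟨a, _, rfl⟩ := h
  exact a.2

theorem St_sub (k : ℕ) (c : Perm (Fin (e + 1))) : St k c ⊆ range (e + 1) :=
  fun _ h => mem_range.2 (St_lt h)

theorem St_ext {k : ℕ} {c : Perm (Fin (e + 1))} {T : Finset ℕ} (hT : T ⊆ range (e + 1)) :
    St k c = T ↔ ∀ (t : ℕ) (h : t < e + 1), ((c⁻¹ ⟨t, h⟩ : Fin (e + 1)) : ℕ) < k ↔ t ∈ T := by
  constructor
  · rintro rfl t h
    exact (mem_St h).symm
  · intro h
    ext t
    constructor
    · intro h1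
      have ht := St_lt h1
      exact (h t ht).1 ((mem_St ht).1 h1)
    · intro h1
      have ht := mem_range.1 (hT h1)
      exact (mem_St ht).2 ((h t ht).2 h1)

/-- the transposition of `i`, `i+1` on the naturals -/
def swn (i t : ℕ) : ℕ := if t = i then i + 1 else if t = i + 1 then i else t

theorem swn_swn (i t : ℕ) : swn i (swn i t) = t := by
  unfold swn
  split_ifs <;> omega

theorem mem_St_sw {k i : ℕ} (h : i + 1 < e + 1) (c : Perm (Fin (e + 1))) (t : ℕ) :
    t ∈ St k (sw (e + 1) i h * c) ↔ swn i t ∈ St k c := by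
  by_cases ht : t < e + 1
  · have ht' : swn i t < e + 1 := by unfold swn; split_ifs <;> omega
    rw [mem_St ht, mem_St ht', mul_inv_rev, Equiv.Perm.mul_apply, sw_inv]
    have : sw (e + 1) i h ⟨t, ht⟩ = ⟨swn i t, ht'⟩ := by
      apply Fin.ext
      rw [sw_val]
      rfl
    rw [this]
  · have ht' : ¬ (swn i t < e + 1) := by unfold swn; split_ifs <;> omega
    constructor
    · intro h1; exact absurd (St_lt h1) ht
    · intro h1; exact absurd (St_lt h1) ht'

theorem St_sw_eq {k i : ℕ} (h : i + 1 < e + 1) (c : Perm (Fin (e + 1))) {T T' : Finset ℕ}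
    (hT : ∀ t, t ∈ T' ↔ swn i t ∈ T) : St k (sw (e + 1) i h * c) = T' ↔ St k c = T := by
  constructor
  · intro h1
    ext t
    have h2 := mem_St_sw (k := k) h c (swn i t)
    rw [swn_swn, h1, hT, swn_swn] at h2
    exact h2.symm
  · intro h1
    ext t
    rw [mem_St_sw, h1, hT]

theorem St_mul_swap {k : ℕ} (c : Perm (Fin (e + 1))) (p p' : Fin (e + 1)) (hp : (p : ℕ) < k)
    (hp' : (p' : ℕ) < k) : St k (c * swap p p') = St k c := by
  unfold St
  congr 1
  ext t
  simp only [mem_filter, mem_univ, true_and, mul_inv_rev, Equiv.Perm.mul_apply, Equiv.swap_inv]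
  rw [Equiv.swap_apply_def]
  split_ifs with h1 h2
  · rw [h1]; exact ⟨fun _ => hp, fun _ => hp'⟩
  · rw [h2]; exact ⟨fun _ => hp', fun _ => hp⟩
  · rfl

end status

section row

variable {K : Type*} [Field K] {q : K} {e k : ℕ}

/-- invariance under the permutations of the low positions of the row index -/
def RowInv (k : ℕ) (G : Mt K e) : Prop :=
  ∀ (i : ℕ) (h : i + 1 < e + 1), i + 1 < k → ∀ c' c, G (c' * sw (e + 1) i h) c = G c' c

theorem RowInv.swap_lt {G : Mt K e} (hG : RowInv k G) : ∀ (n : ℕ) (p p' : Fin (e + 1)),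
    (p : ℕ) + n + 1 = p' → (p' : ℕ) < k → ∀ c' c, G (c' * swap p p') c = G c' c := by
  intro n
  induction n with
  | zero =>
    intro p p' h1 h2 c' c
    have h3 := p'.2
    have := hG p (by omega) (by omega) c' c
    have e1 : (⟨(p : ℕ) + 1, by omega⟩ : Fin (e + 1)) = p' := Fin.ext (by simp; omega)
    have e2 : sw (e + 1) (p : ℕ) (by omega) = Equiv.swap p p' := by
      unfold sw
      rw [e1]
    rw [e2] at this
    exact this
  | succ n ih =>
    intro p p' h1 h2 c' c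
    have h3 := p'.2
    set r : Fin (e + 1) := ⟨(p' : ℕ) - 1, by omega⟩ with hr
    have hrv : (r : ℕ) = (p' : ℕ) - 1 := rfl
    have e0 : swap r p' = sw (e + 1) (r : ℕ) (by omega) := by
      unfold sw
      congr 1
      exact Fin.ext (by simp; omega)
    have e1 : swap p p' = swap r p' * swap p r * swap r p' := by
      rw [Equiv.swap_mul_swap_mul_swap, Equiv.swap_comm]
      · intro h; rw [h] at h1; omega
      · intro h; rw [h] at h1; omega
    rw [e1, e0, ← mul_assoc, ← mul_assoc, hG _ _ (by omega), ih p r (by omega) (by omega),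
      hG _ _ (by omega)]

theorem RowInv.swap {G : Mt K e} (hG : RowInv k G) (p p' : Fin (e + 1)) (hp : (p : ℕ) < k)
    (hp' : (p' : ℕ) < k) (c' c : Perm (Fin (e + 1))) : G (c' * swap p p') c = G c' c := by
  rcases lt_trichotomy (p : ℕ) p' with h | h | h
  · exact hG.swap_lt ((p' : ℕ) - p - 1) p p' (by omega) hp' c' c
  · have : p = p' := Fin.ext h
    rw [this, Equiv.swap_self]
    rfl
  · rw [Equiv.swap_comm]
    exact hG.swap_lt ((p : ℕ) - p' - 1) p' p (by omega) hp c' c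

theorem RowInv.sw_mul {G : Mt K e} (hG : RowInv k G) {i : ℕ} (h : i + 1 < e + 1)
    (c' c : Perm (Fin (e + 1))) (h1 : i ∈ St k c') (h2 : i + 1 ∈ St k c') :
    G (sw (e + 1) i h * c') c = G c' c := by
  have e1 : sw (e + 1) i h * c' =
      c' * Equiv.swap (c'⁻¹ ⟨i, by omega⟩) (c'⁻¹ ⟨i + 1, h⟩) := by
    rw [Equiv.mul_swap_eq_swap_mul]
    unfold sw
    simp
  rw [e1]
  exact hG.swap _ _ ((mem_St _).1 h1) ((mem_St _).1 h2) c' c

theorem RowInv.low {G : Mt K e} (hG : RowInv k G) {i : ℕ} (h : i + 1 < e + 1)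
    (c' c : Perm (Fin (e + 1))) (h1 : i ∈ St k c') (h2 : i + 1 ∈ St k c') :
    (Rop q (e + 1) i h * G) c' c = q * G c' c := by
  rw [Rop_mul_apply]
  have h3 := hG.sw_mul h c' c h1 h2
  unfold tr
  simp only [h3]
  split_ifs <;> ring

theorem RowInv.Rop_mul {G : Mt K e} (hG : RowInv k G) {j : ℕ} (hj : j + 1 < e + 1) :
    RowInv k (Rop q (e + 1) j hj * G) := by
  intro i h hik c' c
  have key : ((c' * sw (e + 1) i h)⁻¹ ⟨j, by omega⟩ < (c' * sw (e + 1) i h)⁻¹ ⟨j + 1, hj⟩ ↔
      c'⁻¹ ⟨j, by omega⟩ < c'⁻¹ ⟨j + 1, hj⟩) ∨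
      (j ∈ St k c' ∧ j + 1 ∈ St k c') := by
    by_cases hA : ((c'⁻¹ ⟨j, by omega⟩ : Fin (e + 1)) : ℕ) = i ∧
        ((c'⁻¹ ⟨j + 1, hj⟩ : Fin (e + 1)) : ℕ) = i + 1
    · right
      exact ⟨(mem_St _).2 (by omega), (mem_St _).2 (by omega)⟩
    · by_cases hB : ((c'⁻¹ ⟨j, by omega⟩ : Fin (e + 1)) : ℕ) = i + 1 ∧
        ((c'⁻¹ ⟨j + 1, hj⟩ : Fin (e + 1)) : ℕ) = i
      · right
        exact ⟨(mem_St _).2 (by omega), (mem_St _).2 (by omega)⟩
      · left
        rw [mul_inv_rev, Equiv.Perm.mul_apply, Equiv.Perm.mul_apply, sw_inv]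
        exact sw_lt h hA hB
  rcases key with key | ⟨h1, h2⟩
  · rw [Rop_mul_apply, Rop_mul_apply]
    unfold tr
    simp only [← mul_assoc, hG i h hik, key]
  · rw [hG.low hj c' c h1 h2]
    have hst : St k (c' * sw (e + 1) i h) = St k c' :=
      St_mul_swap c' _ _ (by simp; omega) (by simpa using hik)
    rw [hG.low hj _ c (by rw [hst]; exact h1) (by rw [hst]; exact h2), hG i h hik]

/-- the projector on the colourings with status `T` -/
def DT (K : Type*) [Field K] {e : ℕ} (k : ℕ) (T : Finset ℕ) : Mt K e :=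
  Matrix.diagonal (fun c => if St k c = T then 1 else 0)

theorem DT_mul (T : Finset ℕ) (G : Mt K e) (c' c : Perm (Fin (e + 1))) :
    (DT K k T * G : Mt K e) c' c = if St k c' = T then G c' c else 0 := by
  unfold DT
  rw [Matrix.diagonal_mul]
  split_ifs <;> simp

theorem mul_DT (T : Finset ℕ) (G : Mt K e) (c' c : Perm (Fin (e + 1))) :
    (G * DT K k T : Mt K e) c' c = if St k c = T then G c' c else 0 := by
  unfold DT
  rw [Matrix.mul_diagonal]
  split_ifs <;> simp

theorem RowInv.DT_mul {G : Mt K e} (hG : RowInv k G) (T : Finset ℕ) :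
    RowInv k (DT K k T * G) := by
  intro i h hik c' c
  have hst : St k (c' * sw (e + 1) i h) = St k c' :=
    St_mul_swap c' _ _ (by simp; omega) (by simpa using hik)
  rw [MP_0e7911_co_h61G.DT_mul, MP_0e7911_co_h61G.DT_mul, hst, hG i h hik]

theorem asc_of {i : ℕ} (h : i + 1 < e + 1) {c : Perm (Fin (e + 1))} (h1 : i ∈ St k c)
    (h2 : i + 1 ∉ St k c) : c⁻¹ ⟨i, by omega⟩ < c⁻¹ ⟨i + 1, h⟩ := by
  rw [mem_St (by omega)] at h1 h2
  rw [Fin.lt_def]
  omega

theorem not_asc_of {i : ℕ} (h : i + 1 < e + 1) {c : Perm (Fin (e + 1))} (h1 : i ∉ St k c)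
    (h2 : i + 1 ∈ St k c) : ¬ (c⁻¹ ⟨i, by omega⟩ < c⁻¹ ⟨i + 1, h⟩) := by
  rw [mem_St (by omega)] at h1 h2
  rw [Fin.lt_def]
  omega

theorem D1 {i : ℕ} (h : i + 1 < e + 1) {T T' : Finset ℕ} (hT : ∀ t, t ∈ T' ↔ swn i t ∈ T)
    (h1 : i ∉ T) (h2 : i + 1 ∈ T) :
    Rop q (e + 1) i h * DT K k T = (q - 1) • DT K k T + DT K k T' * Rop q (e + 1) i h := by
  have hne : T ≠ T' := by
    intro h3
    apply h1
    rw [h3, hT]
    simpa [swn] using h2
  ext c' c
  rw [mul_DT, Matrix.add_apply, Matrix.smul_apply, MP_0e7911_co_h61G.DT_mul, smul_eq_mul]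
  have e1 : (DT K k T : Mt K e) c' c = if c' = c then (if St k c = T then 1 else 0) else 0 := by
    unfold DT
    rw [Matrix.diagonal_apply]
    by_cases h5 : c' = c
    · rw [if_pos h5, if_pos h5, h5]
    · rw [if_neg h5, if_neg h5]
  rw [e1, Rop_eq]
  by_cases hc : St k c = T
  · have hna := not_asc_of (k := k) h (c := c) (by rw [hc]; exact h1) (by rw [hc]; exact h2)
    rw [if_neg hna, if_neg hna]
    by_cases h3 : c' = sw (e + 1) i h * c
    · have h4 : c' ≠ c := by rw [h3]; exact sw_mul_ne i h c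
      have h5 : St k c' = T' := by rw [h3]; exact (St_sw_eq h c hT).2 hc
      rw [if_pos hc, if_pos h3, if_neg h4, if_neg h4, if_pos h5]
      ring
    · by_cases h4 : c' = c
      · have h5 : St k c' ≠ T' := by rw [h4, hc]; exact hne
        rw [if_pos hc, if_neg h3, if_pos h4, if_pos h4, if_neg h5, if_pos hc]
        ring
      · rw [if_pos hc, if_neg h3, if_neg h4, if_neg h4]
        split_ifs <;> ring
  · rw [if_neg hc]
    by_cases h3 : c' = sw (e + 1) i h * c
    · have h4 : c' ≠ c := by rw [h3]; exact sw_mul_ne i h c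
      have h5 : ¬ (St k c' = T') := by rw [h3]; exact fun h => hc ((St_sw_eq _ c hT).1 h)
      rw [if_neg h4, if_neg h5]
      ring
    · by_cases h4 : c' = c
      · by_cases h5 : St k c' = T'
        · have ha := asc_of (k := k) h (c := c)
            (by rw [← h4, h5, hT]; simpa [swn] using h2)
            (by rw [← h4, h5, hT]; simpa [swn] using h1)
          rw [if_pos h4, if_neg hc, if_pos h5, if_neg h3, if_pos h4, if_pos ha]
          ring
        · rw [if_pos h4, if_neg hc, if_neg h5]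
          ring
      · rw [if_neg h4, if_neg h3, if_neg h4]
        split_ifs <;> ring

theorem D2 {i : ℕ} (h : i + 1 < e + 1) {T : Finset ℕ} (h1 : i ∈ T ↔ i + 1 ∈ T) :
    Rop q (e + 1) i h * DT K k T = DT K k T * Rop q (e + 1) i h := by
  have hT : ∀ t, t ∈ T ↔ swn i t ∈ T := by
    intro t
    unfold swn
    split_ifs with h2 h3
    · rw [h2]; exact h1
    · rw [h3]; exact h1.symm
    · rfl
  ext c' c
  rw [mul_DT, MP_0e7911_co_h61G.DT_mul, Rop_eq]
  by_cases h3 : c' = sw (e + 1) i h * c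
  · have h5 : St k c' = T ↔ St k c = T := by rw [h3]; exact St_sw_eq h c hT
    simp only [h5]
  · by_cases h4 : c' = c
    · rw [h4]
    · rw [if_neg h3, if_neg h4, add_zero]
      split_ifs <;> rfl

theorem D3 {i : ℕ} (h : i + 1 < e + 1) {T T' : Finset ℕ} (hT : ∀ t, t ∈ T' ↔ swn i t ∈ T)
    (h1 : i ∈ T) (h2 : i + 1 ∉ T) :
    DT K k T * Rop q (e + 1) i h = DT K k T * Rop q (e + 1) i h * DT K k T' := by
  have hT' : ∀ t, t ∈ T ↔ swn i t ∈ T' := by
    intro t
    rw [hT, swn_swn]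
  ext c' c
  rw [mul_DT, MP_0e7911_co_h61G.DT_mul]
  by_cases hc' : St k c' = T
  · rw [if_pos hc', Rop_eq]
    by_cases h3 : c' = sw (e + 1) i h * c
    · have h5 : St k c = T' := by
        rw [h3] at hc'
        exact (St_sw_eq h c hT').1 hc'
      rw [if_pos h5]
    · by_cases h4 : c' = c
      · have ha := asc_of (k := k) h (c := c) (by rw [← h4, hc']; exact h1)
          (by rw [← h4, hc']; exact h2)
        rw [if_neg h3, if_pos h4, if_pos ha]
        split_ifs <;> ring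
      · rw [if_neg h3, if_neg h4]
        split_ifs <;> ring
  · rw [if_neg hc']
    split_ifs <;> rfl

theorem D4 {G : Mt K e} (hG : RowInv k G) {i : ℕ} (h : i + 1 < e + 1) {T : Finset ℕ}
    (h1 : i ∈ T) (h2 : i + 1 ∈ T) :
    DT K k T * (Rop q (e + 1) i h * G) = q • (DT K k T * G) := by
  ext c' c
  rw [MP_0e7911_co_h61G.DT_mul, Matrix.smul_apply, MP_0e7911_co_h61G.DT_mul, smul_eq_mul]
  by_cases hc' : St k c' = T
  · rw [if_pos hc', if_pos hc', hG.low h c' c (by rw [hc']; exact h1) (by rw [hc']; exact h2)]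
  · rw [if_neg hc', if_neg hc', mul_zero]

theorem D5 {G : Mt K e} (hG : RowInv k G) {i : ℕ} (h : i + 1 < e + 1) {T : Finset ℕ}
    (h1 : i ∈ T) (h2 : i + 1 ∈ T) :
    Rop q (e + 1) i h * (DT K k T * G) = q • (DT K k T * G) := by
  rw [← mul_assoc, D2 h ⟨fun _ => h2, fun _ => h1⟩, mul_assoc, D4 hG h h1 h2]

end row

end Pool.Agent.Lib.MP_0e7911_co_h61G
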