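import Mathlib

/-!
# The exchange identity: numerical part

`W a b` are the values of the functional on the words with left end `a` and right end `b`.
-/

set_option autoImplicit false

namespace Pool.Agent.Lib.MP_0e7911_co_h61G

open Finset

section comm

variable {K : Type*} [CommRing K]

/-- the `q`-number -/
def qn (q : K) (n : ℕ) : K := ∑ i ∈ range n, q ^ i

@[simp] theorem qn_zero (q : K) : qn q 0 = 0 := by simp [qn]

@[simp] theorem qn_one (q : K) : qn q 1 = 1 := by simp [qn]

theorem qn_succ (q : K) (n : ℕ) : qn q (n + 1) = qn q n + q ^ n := by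
  unfold qn; rw [Finset.sum_range_succ]

theorem qn_succ' (q : K) (n : ℕ) : qn q (n + 1) = 1 + q * qn q n := by
  unfold qn; rw [Finset.sum_range_succ', Finset.mul_sum]
  rw [add_comm, pow_zero]
  congr 1
  exact sum_congr rfl fun i _ => by ring

theorem qn_mul (q : K) (n : ℕ) : (q - 1) * qn q n = q ^ n - 1 := by
  have h1 := qn_succ q n
  have h2 := qn_succ' q n
  rw [h1] at h2
  linear_combination -h2

/-- The numerical exchange identity. -/
theorem exch_sum (q : K) : ∀ (s : ℕ) (x : ℕ → K),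
    (∀ j, 2 * j + 3 ≤ s → x (s - 1 - j) = q * x (1 + j) +
      (q - 1) * ∑ i ∈ Ico (j + 2) (s - 1 - j), x i) →
    ∑ c ∈ Ico 1 s, (q ^ c * qn q (s - c) - q * qn q c) * x c = 0 := by
  intro s
  induction s using Nat.strong_induction_on with
  | _ s ih =>
  intro x hx
  rcases s with _ | _ | _ | n
  · simp
  · simp
  · simp
  have h0 := hx 0 (by omega)
  simp only [add_zero, Nat.sub_zero, zero_add] at h0
  have e1 : n + 1 + 1 + 1 - 1 = n + 2 := by omega
  rw [e1] at h0
  have IH := ih (n + 1) (by omega) (fun c => x (c + 1)) (by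
    intro j hj
    have := hx (j + 1) (by omega)
    have e2 : n + 1 + 1 + 1 - 1 - (j + 1) = n + 1 - 1 - j + 1 := by omega
    have e3 : 1 + (j + 1) = 1 + j + 1 := by ring
    have e4 : j + 1 + 2 = j + 2 + 1 := by ring
    rw [e2, e3, e4, ← Finset.sum_Ico_add'] at this
    exact this)
  have hsplit : ∀ f : ℕ → K, ∑ c ∈ Ico 1 (n + 1 + 1 + 1), f c =
      f 1 + ∑ c ∈ Ico 1 (n + 1), f (c + 1) + f (n + 2) := by
    intro f
    rw [Finset.sum_eq_sum_Ico_succ_bot (by omega), Finset.sum_Ico_succ_top (by omega),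
      Finset.sum_Ico_add' f 1 (n + 1) 1, add_assoc]
  rw [hsplit]
  have hS : ∑ i ∈ Ico 2 (n + 2), x i = ∑ c ∈ Ico 1 (n + 1), x (c + 1) := by
    rw [Finset.sum_Ico_add']
  rw [hS] at h0
  have hterm : ∀ c ∈ Ico 1 (n + 1),
      (q ^ (c + 1) * qn q (n + 1 + 1 + 1 - (c + 1)) - q * qn q (c + 1)) * x (c + 1) =
      q * ((q ^ c * qn q (n + 1 - c) - q * qn q c) * x (c + 1)) +
        q * (q - 1) * qn q (n + 1) * x (c + 1) := by
    intro c hc
    rw [mem_Ico] at hc
    have e2 : n + 1 + 1 + 1 - (c + 1) = (n + 1 - c) + 1 := by omega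
    rw [e2, qn_succ q (n + 1 - c), qn_succ' q c]
    have e3 : q ^ (n + 1) = q ^ c * q ^ (n + 1 - c) := by
      rw [← pow_add]; congr 1; omega
    have e4 := qn_mul q (n + 1)
    have e5 : q * (q - 1) * qn q (n + 1) = q * (q ^ c * q ^ (n + 1 - c) - 1) := by
      rw [← e3, ← e4]; ring
    rw [e5]
    ring
  rw [Finset.sum_congr rfl hterm, Finset.sum_add_distrib, ← Finset.mul_sum, IH, mul_zero, zero_add,
    ← Finset.mul_sum, h0]
  have e6 : n + 1 + 1 + 1 - 1 = n + 1 + 1 := by omega
  have e7 : n + 1 + 1 + 1 - (n + 2) = 1 := by omega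
  rw [e6, e7, qn_one, qn_succ' q (n + 1)]
  linear_combination (-(q * (q * x 1 + (q - 1) * ∑ c ∈ Ico 1 (n + 1), x (c + 1)))) *
    qn_mul q (n + 1)

end comm

section field

variable {K : Type*} [Field K]

/-- From the relations between the words to the relations between the diagonal values. -/
theorem W_rel (q : K) (hq : q ≠ 0) (s : ℕ) (W : ℕ → ℕ → K)
    (odd : ∀ a m, 1 ≤ a → a + 1 + 2 * m + 1 < s →
      W a (a + 1 + 2 * m + 1) = q * W (a + 1) (a + 1 + 2 * m))
    (ev1 : ∀ m, 1 + 2 * m + 1 < s → W 1 (1 + 2 * m + 1) = q * W 1 (1 + 2 * m))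
    (ev2 : ∀ a m, 1 ≤ a → a + 1 + 2 * m + 1 < s →
      W (a + 1) (a + 1 + 2 * m + 1) = (q - 1) * W (a + 1) (a + 1 + 2 * m) + W a (a + 1 + 2 * m))
    (ev3 : ∀ a m, 1 ≤ a → a + 1 + 2 * m + 1 = s →
      W a (a + 1 + 2 * m) = W (a + 1) (a + 1 + 2 * m)) :
    ∀ j, 2 * j + 3 ≤ s → W (s - 1 - j) (s - 1 - j) = q * W (1 + j) (1 + j) +
      (q - 1) * ∑ i ∈ Ico (j + 2) (s - 1 - j), W i i := by
  have diag : ∀ m a, 1 ≤ a → a + 2 * m < s → W a (a + 2 * m) = q ^ m * W (a + m) (a + m) := by
    intro m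
    induction m with
    | zero => intro a _ _; simp
    | succ m ih =>
      intro a ha hs
      have h1 := odd a m ha (by omega)
      have h2 := ih (a + 1) (by omega) (by omega)
      have e1 : a + 2 * (m + 1) = a + 1 + 2 * m + 1 := by ring
      have e2 : a + (m + 1) = a + 1 + m := by ring
      rw [e1, e2, h1, h2, pow_succ]
      ring
  intro j hj
  have claim : ∀ m', 1 + m' + 2 * j + 1 < s → W (1 + m') (1 + m' + 2 * j + 1) =
      q ^ j * (q * W (1 + j) (1 + j) + (q - 1) * ∑ i ∈ Ico (j + 2) (j + 2 + m'), W i i) := by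
    intro m'
    induction m' with
    | zero =>
      intro hs
      have h1 := ev1 j (by omega)
      have h2 := diag j 1 le_rfl (by omega)
      simp only [add_zero, Finset.Ico_self, Finset.sum_empty, mul_zero]
      rw [h1, h2]
      ring
    | succ m' ih =>
      intro hs
      have h1 := ev2 (1 + m') j (by omega) (by omega)
      have h2 := diag j (1 + m' + 1) (by omega) (by omega)
      have h3 := ih (by omega)
      have e1 : 1 + m' + 1 + 2 * j = 1 + m' + 2 * j + 1 := by ring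
      have e2 : 1 + (m' + 1) = 1 + m' + 1 := by ring
      have e3 : j + 2 + (m' + 1) = j + 2 + m' + 1 := by ring
      have e4 : 1 + m' + 1 + j = j + 2 + m' := by ring
      rw [e2, h1, e3, Finset.sum_Ico_succ_top (by omega)]
      rw [h2, e4, e1, h3]
      ring
  obtain ⟨a, ha⟩ : ∃ a, s = a + 1 + 2 * j + 1 := ⟨s - 2 - 2 * j, by omega⟩
  have ha1 : 1 ≤ a := by omega
  have h1 := ev3 a j ha1 ha.symm
  have h2 := diag j (a + 1) (by omega) (by omega)
  have h3 := claim (a - 1) (by omega)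
  have e1 : 1 + (a - 1) = a := by omega
  have e2 : a + 2 * j + 1 = a + 1 + 2 * j := by ring
  have e3 : s - 1 - j = a + 1 + j := by omega
  have e4 : j + 2 + (a - 1) = a + 1 + j := by omega
  rw [e1, e2, h1, h2, e4] at h3
  rw [e3]
  exact mul_left_cancel₀ (pow_ne_zero j hq) h3

end field

end Pool.Agent.Lib.MP_0e7911_co_h61G
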