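import Pool.Agent.Lib.MP_0e7911_co_h61.GapMat

/-!
# The exchange identity for one gap
-/

set_option autoImplicit false

namespace Pool.Agent.Lib.MP_0e7911_co_h61G

open Finset Equiv Pool.Agent.Lib.MP_0e7911_co_h50

variable {K : Type*} [Field K] {q : K} {e k : ℕ}

/-- the matrix with the row index rotated -/
def G0 (X : Mt K e) : Mt K e := fun c' c => X ((finRotate (e + 1))⁻¹ * c') c

theorem G0_rowInv {X : Mt K e} (hX : RowInv k X) : RowInv k (G0 X) := by
  intro i h hik c' c
  show X ((finRotate (e + 1))⁻¹ * (c' * sw (e + 1) i h)) c = X ((finRotate (e + 1))⁻¹ * c') c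
  rw [← mul_assoc, hX i h hik]

theorem G0_mul (X Y : Mt K e) : G0 X * Y = G0 (X * Y) := by
  ext c' c
  rw [Matrix.mul_apply]
  unfold G0
  rw [Matrix.mul_apply]

theorem rot_lt {j : ℕ} (h : j + 1 < e + 1) :
    finRotate (e + 1) ⟨j, by omega⟩ = ⟨j + 1, h⟩ := finRotate_of_lt (by omega)

theorem rot_inv_succ {j : ℕ} (h : j + 1 < e + 1) :
    (finRotate (e + 1))⁻¹ ⟨j + 1, h⟩ = ⟨j, by omega⟩ := by
  rw [← rot_lt h]; simp

theorem inv_rot_mul (c' : Perm (Fin (e + 1))) (t : Fin (e + 1)) :
    ((finRotate (e + 1))⁻¹ * c')⁻¹ t = c'⁻¹ (finRotate (e + 1) t) := by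
  rw [mul_inv_rev, inv_inv, Equiv.Perm.mul_apply]

theorem St_rot {t : ℕ} (h : t + 1 < e + 1) (c' : Perm (Fin (e + 1))) :
    t ∈ St k ((finRotate (e + 1))⁻¹ * c') ↔ t + 1 ∈ St k c' := by
  rw [mem_St (by omega), mem_St h, inv_rot_mul, rot_lt h]

theorem St_rot_last (c' : Perm (Fin (e + 1))) :
    e ∈ St k ((finRotate (e + 1))⁻¹ * c') ↔ 0 ∈ St k c' := by
  rw [mem_St (by omega), mem_St (by omega), inv_rot_mul]
  have : finRotate (e + 1) ⟨e, by omega⟩ = 0 := finRotate_last
  rw [this]
  rfl

theorem G0_RR {X : Mt K e} (hX : Comm q X) {j : ℕ} (hj : j + 1 < e) :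
    G0 X * RR q e j = RR q e (j + 1) * G0 X := by
  have h : j + 1 < e + 1 := by omega
  have h' : j + 1 + 1 < e + 1 := by omega
  rw [RR_eq q e h, RR_eq q e h', G0_mul, hX j h]
  ext c' c
  show (Rop q (e + 1) j h * X) ((finRotate (e + 1))⁻¹ * c') c = _
  rw [Rop_mul_apply, Rop_mul_apply]
  unfold tr G0
  have e1 : ((finRotate (e + 1))⁻¹ * c')⁻¹ ⟨j, by omega⟩ = c'⁻¹ ⟨j + 1, by omega⟩ := by
    rw [inv_rot_mul, rot_lt h]
  have e2 : ((finRotate (e + 1))⁻¹ * c')⁻¹ ⟨j + 1, h⟩ = c'⁻¹ ⟨j + 1 + 1, h'⟩ := by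
    rw [inv_rot_mul, rot_lt h']
  have e3 : sw (e + 1) j h * ((finRotate (e + 1))⁻¹ * c') =
      (finRotate (e + 1))⁻¹ * (sw (e + 1) (j + 1) h' * c') := by
    rw [← mul_assoc, ← mul_assoc]
    congr 1
    unfold sw
    rw [Equiv.mul_swap_eq_swap_mul, rot_inv_succ h, rot_inv_succ h']
  rw [e1, e2, e3]

theorem G0_last {X : Mt K e} (hX : Comm q X) (hrow : RowInv k X) {j : ℕ} (hj : j + 1 = e)
    {T : Finset ℕ} (h0 : 0 ∈ T) (he : e ∈ T) :
    DT K k T * (G0 X * RR q e j) = q • (DT K k T * G0 X) := by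
  have h : j + 1 < e + 1 := by omega
  rw [RR_eq q e h, G0_mul, hX j h]
  ext c' c
  rw [DT_mul, Matrix.smul_apply, DT_mul, smul_eq_mul]
  by_cases hc' : St k c' = T
  · rw [if_pos hc', if_pos hc']
    show (Rop q (e + 1) j h * X) ((finRotate (e + 1))⁻¹ * c') c = _
    rw [hrow.low h]
    · rfl
    · rw [St_rot h, hc', hj]; exact he
    · rw [hj, St_rot_last, hc']; exact h0
  · rw [if_neg hc', if_neg hc', mul_zero]

theorem PR_rowInv (q : K) {G : Mt K e} (hG : RowInv k G) (a n : ℕ) :
    RowInv k (PR (RR q e) a n * G) := by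
  induction n generalizing G with
  | zero => rw [PR_zero, one_mul]; exact hG
  | succ n ih =>
    rw [PR_succ, mul_assoc]
    refine ih ?_
    by_cases h : a + n + 1 < e + 1
    · rw [RR_eq q e h]; exact hG.Rop_mul h
    · unfold RR
      rw [dif_neg h, zero_mul]
      intro i _ _ c' c
      rfl

/-- the value of a status -/
def xT (k : ℕ) (X : Mt K e) (T : Finset ℕ) : K :=
  ∑ c : Perm (Fin (e + 1)), if St k c = T then X ((finRotate (e + 1))⁻¹ * c) c else 0

theorem trace_DT (X : Mt K e) (T : Finset ℕ) :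
    Matrix.traceLinearMap (Perm (Fin (e + 1))) K K (DT K k T * G0 X) = xT k X T := by
  rw [Matrix.traceLinearMap_apply, Matrix.trace, xT]
  refine sum_congr rfl fun c _ => ?_
  rw [Matrix.diag_apply, DT_mul]
  rfl

theorem swn_insert {L : Finset ℕ} {a : ℕ} (h1 : a ∉ L) (h2 : a + 1 ∉ L) (t : ℕ) :
    t ∈ insert a L ↔ swn a t ∈ insert (a + 1) L := by
  unfold swn
  rw [mem_insert, mem_insert]
  split_ifs with h3 h4
  · simp [h3]
  · rw [h4]; simp [h1, h2]
  · constructor
    · rintro (h | h)
      · exact absurd h h3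
      · exact Or.inr h
    · rintro (h | h)
      · exact absurd h h4
      · exact Or.inr h

theorem swn_insert' {L : Finset ℕ} {a : ℕ} (h1 : a ∉ L) (h2 : a + 1 ∉ L) (t : ℕ) :
    t ∈ insert (a + 1) L ↔ swn a t ∈ insert a L := by
  rw [swn_insert h1 h2, swn_swn]

theorem DT_idem (T : Finset ℕ) : (DT K k T * DT K k T : Mt K e) = DT K k T := by
  ext c' c
  rw [DT_mul]
  split_ifs with h
  · rfl
  · unfold DT
    rw [Matrix.diagonal_apply]
    split_ifs <;> rfl

theorem DPR {L : Finset ℕ} {lo hi : ℕ} (hhi : hi ≤ e + 1) (hgap : ∀ t, lo < t → t < hi → t ∉ L)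
    {a : ℕ} (ha : lo < a) (n : ℕ) (hn : a + n < hi) :
    DT K k (insert a L) * PR (RR q e) a n =
      DT K k (insert a L) * PR (RR q e) a n * DT K k (insert (a + n) L) := by
  induction n with
  | zero => rw [PR_zero, mul_one, add_zero, DT_idem]
  | succ n ih =>
    have h : a + n + 1 < e + 1 := by omega
    have h3 := D3 (q := q) (K := K) (k := k) h (T := insert (a + n) L) (T' := insert (a + n + 1) L)
      (swn_insert' (hgap _ (by omega) (by omega)) (hgap _ (by omega) (by omega)))
      (mem_insert_self _ _)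
      (by
        rw [mem_insert, not_or]
        exact ⟨by omega, hgap _ (by omega) (by omega)⟩)
    rw [PR_succ, ← mul_assoc, RR_eq q e h]
    calc DT K k (insert a L) * PR (RR q e) a n * Rop q (e + 1) (a + n) h
        = DT K k (insert a L) * PR (RR q e) a n *
            (DT K k (insert (a + n) L) * Rop q (e + 1) (a + n) h) := by
          rw [← mul_assoc, ← ih (by omega)]
      _ = DT K k (insert a L) * PR (RR q e) a n *
            DT K k (insert (a + n) L) * Rop q (e + 1) (a + n) h *
              DT K k (insert (a + n + 1) L) := by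
          rw [h3]; simp only [mul_assoc]
      _ = _ := by rw [← ih (by omega)]; rfl

/-- The exchange identity for one gap. -/
theorem window_mat (hq : q ≠ 0) (X : Mt K e) (hX : Comm q X) (hrow : RowInv k X)
    (L : Finset ℕ) (h0 : 0 ∈ L) (lo hi : ℕ) (hlo : lo ∈ L)
    (hhi : hi ≤ e + 1) (hhi' : hi = e + 1 ∨ (hi ∈ L ∧ hi < e + 1))
    (hgap : ∀ t, lo < t → t < hi → t ∉ L) :
    ∑ c ∈ Ico 1 (hi - lo), (q ^ c * qn q (hi - lo - c) - q * qn q c) *
      xT k X (insert (lo + c) L) = 0 := by
  have := window q (RR q e) e (Matrix.traceLinearMap (Perm (Fin (e + 1))) K K)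
    (fun a => DT K k (insert a L)) (G0 X) lo hi hq hhi
    (fun i hi => RR_sq hq i hi) (fun i hi => RR_braid hq i hi)
    (fun i j hi hj hij => RR_far hq i j hi hj hij)
    (fun x y => by
      rw [Matrix.traceLinearMap_apply, Matrix.traceLinearMap_apply, Matrix.trace_mul_comm])
    (fun j hj => G0_RR hX hj) ?_ ?_ ?_ ?_
  · simp only [trace_DT] at this
    exact this
  · intro a ha ha'
    have h : a + 1 < e + 1 := by omega
    show RR q e a * DT K k (insert (a + 1) L) = (q - 1) • DT K k (insert (a + 1) L) +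
      DT K k (insert a L) * RR q e a
    rw [RR_eq q e h]
    refine D1 h (swn_insert (hgap _ (by omega) (by omega)) (hgap _ (by omega) (by omega))) ?_
      (mem_insert_self _ _)
    rw [mem_insert, not_or]
    exact ⟨by omega, hgap _ (by omega) (by omega)⟩
  · intro a j ha haj hj
    have h : j + 1 < e + 1 := by omega
    show RR q e j * DT K k (insert a L) = DT K k (insert a L) * RR q e j
    rw [RR_eq q e h]
    refine D2 h ?_
    rw [mem_insert, mem_insert]
    have h1 := hgap j (by omega) (by omega)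
    have h2 := hgap (j + 1) (by omega) (by omega)
    constructor
    · rintro (h | h)
      · omega
      · exact absurd h h1
    · rintro (h | h)
      · omega
      · exact absurd h h2
  · intro n hn
    have h : lo + 1 < e + 1 := by omega
    show RR q e lo * (DT K k (insert (lo + 1) L) * PR (RR q e) (lo + 1) n * G0 X) =
      q • (DT K k (insert (lo + 1) L) * PR (RR q e) (lo + 1) n * G0 X)
    rw [mul_assoc, RR_eq q e h]
    exact D5 (PR_rowInv q (G0_rowInv hrow) _ _) h (mem_insert_of_mem hlo) (mem_insert_self _ _)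
  · intro a n ha hn
    have htr : ∀ x y : Mt K e, Matrix.traceLinearMap (Perm (Fin (e + 1))) K K (x * y) =
        Matrix.traceLinearMap (Perm (Fin (e + 1))) K K (y * x) := fun x y => by
      rw [Matrix.traceLinearMap_apply, Matrix.traceLinearMap_apply, Matrix.trace_mul_comm]
    have hD := DPR (q := q) (K := K) (k := k) (e := e) (L := L) hhi hgap (a := a + 1) (by omega) n
      (by omega)
    show Matrix.traceLinearMap (Perm (Fin (e + 1))) K K
        (RR q e (a + n) * (DT K k (insert (a + 1) L) * PR (RR q e) (a + 1) n * G0 X)) =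
      q * Matrix.traceLinearMap (Perm (Fin (e + 1))) K K
        (DT K k (insert (a + 1) L) * PR (RR q e) (a + 1) n * G0 X)
    set Y := DT K k (insert (a + 1) L) * PR (RR q e) (a + 1) n with hY
    rw [htr, mul_assoc]
    have hT : a + 1 + n ∈ insert (a + 1 + n) L := mem_insert_self _ _
    have key : DT K k (insert (a + 1 + n) L) * (G0 X * RR q e (a + n)) =
        q • (DT K k (insert (a + 1 + n) L) * G0 X) := by
      rcases hhi' with hE | ⟨hE, hE'⟩
      · refine G0_last hX hrow (by omega) (mem_insert_of_mem h0) ?_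
        rw [show e = a + 1 + n by omega]
        exact mem_insert_self _ _
      · rw [G0_RR hX (by omega), show a + n + 1 = a + 1 + n by ring,
          RR_eq q e (j := a + 1 + n) (by omega)]
        refine D4 (G0_rowInv hrow) _ hT (mem_insert_of_mem ?_)
        rw [hn]; exact hE
    rw [hD]
    rw [mul_assoc, key, mul_smul_comm, map_smul, smul_eq_mul, ← mul_assoc]

end Pool.Agent.Lib.MP_0e7911_co_h61G
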